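import Mathlib

/-!
# Phases with polynomial shift patterns

Auxiliary definitions for the order-independence barrier for Chowla averages.
-/

namespace Pool.Agent.Helper8.Order

open Polynomial

/-- `Σ_h p_h log (x + h)` -/
noncomputable def L (p : ℤ[X]) (x : ℝ) : ℝ := p.sum fun h c => (c : ℝ) * Real.log (x + h)

/-- the phase `exp (i π τ L p n)` -/
noncomputable def E (τ : ℝ) (p : ℤ[X]) (n : ℕ) : ℂ :=
  Complex.exp ((Real.pi * τ * L p n : ℝ) * Complex.I)

end Pool.Agent.Helper8.Order
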