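import Mathlib
import Pool.Agent.Helper8.Order.Defs

/-!
# Size of the phases `L p n` in terms of the order of vanishing of `p` at `1`
-/

namespace Pool.Agent.Helper8.Order

open Polynomial Finset Filter Topology

lemma L_add (p q : ℤ[X]) (x : ℝ) : L (p + q) x = L p x + L q x := by
  unfold L
  rw [Polynomial.sum_add_index]
  · intro i; simp
  · intro a b c; push_cast; ring

lemma L_mon (m : ℤ) (h : ℕ) (x : ℝ) : L (monomial h m) x = m * Real.log (x + h) := by
  unfold L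
  rw [Polynomial.sum_monomial_index]
  simp

lemma L_monomial (m : ℤ) (h : ℕ) (x : ℝ) : L (C m * X ^ h) x = m * Real.log (x + h) := by
  rw [C_mul_X_pow_eq_monomial, L_mon]

lemma L_zero (x : ℝ) : L 0 x = 0 := by simp [L]

lemma L_neg (p : ℤ[X]) (x : ℝ) : L (-p) x = - L p x := by
  have h := L_add p (-p) x
  rw [add_neg_cancel, L_zero] at h
  linarith

lemma L_sub (p q : ℤ[X]) (x : ℝ) : L (p - q) x = L p x - L q x := by
  rw [sub_eq_add_neg, L_add, L_neg]; ring

lemma L_sum {ι : Type*} (s : Finset ι) (f : ι → ℤ[X]) (x : ℝ) :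
    L (∑ i ∈ s, f i) x = ∑ i ∈ s, L (f i) x := by
  classical
  induction s using Finset.induction_on with
  | empty => simp [L_zero]
  | insert a s ha ih => rw [Finset.sum_insert ha, Finset.sum_insert ha, L_add, ih]

lemma L_X_pow_mul (p : ℤ[X]) (u : ℕ) (x : ℝ) : L (X ^ u * p) x = L p (x + u) := by
  induction p using Polynomial.induction_on' with
  | add p q hp hq => rw [mul_add, L_add, L_add, hp, hq]
  | monomial n a =>
    rw [X_pow_mul_monomial, L_mon, L_mon]
    push_cast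
    congr 2
    ring

/-- moments of the coefficients -/
noncomputable def mom (p : ℤ[X]) (i : ℕ) : ℝ := p.sum fun h c => (c : ℝ) * (h : ℝ) ^ i

lemma mom_add (p q : ℤ[X]) (i : ℕ) : mom (p + q) i = mom p i + mom q i := by
  unfold mom
  rw [Polynomial.sum_add_index]
  · intro i; simp
  · intro a b c; push_cast; ring

lemma mom_mon (m : ℤ) (h i : ℕ) : mom (monomial h m) i = m * (h : ℝ) ^ i := by
  unfold mom
  rw [Polynomial.sum_monomial_index]
  simp

lemma mom_zero_poly (i : ℕ) : mom 0 i = 0 := by simp [mom]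

lemma mom_X_sub_one_mul (p : ℤ[X]) (i : ℕ) :
    mom ((X - 1) * p) i = ∑ j ∈ range i, (i.choose j : ℝ) * mom p j := by
  induction p using Polynomial.induction_on' with
  | add p q hp hq =>
    rw [mul_add, mom_add, hp, hq, ← Finset.sum_add_distrib]
    refine Finset.sum_congr rfl fun j _ => ?_
    rw [mom_add]; ring
  | monomial n a =>
    have h1 : (X - 1) * monomial n a = monomial (n + 1) a + monomial n (-a) := by
      rw [sub_mul, one_mul, X_mul_monomial, sub_eq_add_neg, ← map_neg]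
    rw [h1, mom_add, mom_mon, mom_mon]
    have h2 : ((n + 1 : ℕ) : ℝ) ^ i = ∑ j ∈ range i, (i.choose j : ℝ) * (n : ℝ) ^ j + (n : ℝ) ^ i := by
      push_cast
      rw [add_pow, Finset.sum_range_succ]
      simp only [one_pow, mul_one, Nat.choose_self, Nat.cast_one]
      congr 1
      refine Finset.sum_congr rfl fun j _ => ?_
      ring
    rw [h2]
    push_cast
    have h3 : ∑ j ∈ range i, (i.choose j : ℝ) * mom (monomial n a) j
        = (a : ℝ) * ∑ j ∈ range i, (i.choose j : ℝ) * (n : ℝ) ^ j := by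
      rw [Finset.mul_sum]
      refine Finset.sum_congr rfl fun j _ => ?_
      rw [mom_mon]; ring
    rw [h3]; ring

lemma mom_zero (p : ℤ[X]) : mom p 0 = (p.eval 1 : ℤ) := by
  induction p using Polynomial.induction_on' with
  | add p q hp hq => rw [mom_add, hp, hq, eval_add]; push_cast; ring
  | monomial n a => rw [mom_mon]; simp

lemma mom_pow (r : ℕ) (q : ℤ[X]) :
    (∀ i, i < r → mom ((X - 1) ^ r * q) i = 0) ∧
      mom ((X - 1) ^ r * q) r = (r.factorial : ℝ) * (q.eval 1 : ℤ) := by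
  induction r with
  | zero =>
    refine ⟨fun i hi => absurd hi (Nat.not_lt_zero _), ?_⟩
    rw [pow_zero, one_mul, mom_zero]; simp
  | succ r ih =>
    have e : (X - 1) ^ (r + 1) * q = (X - 1) * ((X - 1) ^ r * q) := by ring
    rw [e]
    constructor
    · intro i hi
      rw [mom_X_sub_one_mul]
      apply Finset.sum_eq_zero
      intro j hj
      rw [Finset.mem_range] at hj
      rw [ih.1 j (by omega), mul_zero]
    · rw [mom_X_sub_one_mul, Finset.sum_range_succ, Finset.sum_eq_zero, zero_add, ih.2,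
        Nat.choose_succ_self_right, Nat.factorial_succ]
      · push_cast; ring
      · intro j hj
        rw [Finset.mem_range] at hj
        rw [ih.1 j hj, mul_zero]

/-- Main term of the phase. -/
lemma L_main (r : ℕ) (hr : 1 ≤ r) (p : ℤ[X]) (hm : ∀ i, i < r → mom p i = 0) :
    ∃ S : ℝ, 0 ≤ S ∧ ∃ n0 : ℕ, 1 ≤ n0 ∧ ∀ n : ℕ, n0 ≤ n →
      |L p n - (-1) ^ (r - 1) * mom p r / (r * (n : ℝ) ^ r)| ≤ S / (n : ℝ) ^ (r + 1) := by
  refine ⟨∑ h ∈ p.support, |(p.coeff h : ℝ)| * (2 * (h : ℝ) ^ (r + 1)), by positivity,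
    2 * p.natDegree + 1, by omega, ?_⟩
  intro n hn
  have hn0 : (0 : ℝ) < n := by
    have : 0 < n := by omega
    exact_mod_cast this
  have hL : L p n = ∑ h ∈ p.support, (p.coeff h : ℝ) * Real.log ((n : ℝ) + h) := rfl
  have hmom : ∀ i, mom p i = ∑ h ∈ p.support, (p.coeff h : ℝ) * (h : ℝ) ^ i := fun i => rfl
  -- pointwise Taylor
  have hT : ∀ h ∈ p.support,
      |Real.log ((n : ℝ) + h) - (Real.log n - ∑ i ∈ range r, (-(h : ℝ) / n) ^ (i + 1) / (i + 1))|
        ≤ 2 * (h : ℝ) ^ (r + 1) / (n : ℝ) ^ (r + 1) := by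
    intro h hh
    have hdeg : h ≤ p.natDegree := Polynomial.le_natDegree_of_mem_supp h hh
    have hh0 : (0 : ℝ) ≤ h := by positivity
    have hhn : 2 * (h : ℝ) ≤ n := by
      have : 2 * h ≤ n := by omega
      exact_mod_cast this
    set y : ℝ := -(h : ℝ) / n with hy
    have hy1 : |y| = (h : ℝ) / n := by
      rw [hy, abs_div, abs_neg, abs_of_nonneg hh0, abs_of_pos hn0]
    have hy2 : |y| ≤ 1 / 2 := by
      rw [hy1, div_le_div_iff₀ hn0 (by norm_num)]; linarith
    have h1 := Real.abs_log_sub_add_sum_range_le (x := y) (by linarith) r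
    have e1 : Real.log ((n : ℝ) + h) = Real.log n + Real.log (1 - y) := by
      rw [← Real.log_mul hn0.ne' (by rw [hy, neg_div, sub_neg_eq_add]; positivity)]
      congr 1
      rw [hy]; field_simp; ring
    have e2 : Real.log ((n : ℝ) + h) - (Real.log n - ∑ i ∈ range r, y ^ (i + 1) / (i + 1))
        = ∑ i ∈ range r, y ^ (i + 1) / (i + 1) + Real.log (1 - y) := by rw [e1]; ring
    rw [e2]
    refine h1.trans ?_
    have e5 : 2 * (h : ℝ) ^ (r + 1) / (n : ℝ) ^ (r + 1) = 2 * ((h : ℝ) / n) ^ (r + 1) := by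
      rw [div_pow]; ring
    rw [hy1, e5]
    have h3 : 0 ≤ ((h : ℝ) / n) ^ (r + 1) := by positivity
    have h4 : 1 / 2 ≤ 1 - (h : ℝ) / n := by rw [← hy1]; linarith
    rw [div_le_iff₀ (by linarith)]
    nlinarith
  -- summation
  have e3 : (-1 : ℝ) ^ (r - 1) * mom p r / (r * (n : ℝ) ^ r)
      = ∑ h ∈ p.support, (p.coeff h : ℝ) *
        (Real.log n - ∑ i ∈ range r, (-(h : ℝ) / n) ^ (i + 1) / (i + 1)) := by
    have e4 : ∑ h ∈ p.support, (p.coeff h : ℝ) *
        (Real.log n - ∑ i ∈ range r, (-(h : ℝ) / n) ^ (i + 1) / (i + 1))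
        = mom p 0 * Real.log n
          - ∑ i ∈ range r, mom p (i + 1) * ((-1) ^ (i + 1) / (n : ℝ) ^ (i + 1) / (i + 1)) := by
      simp_rw [mul_sub, Finset.sum_sub_distrib]
      congr 1
      · rw [hmom, Finset.sum_mul]
        refine Finset.sum_congr rfl fun h _ => ?_
        rw [pow_zero, mul_one]
      · simp_rw [Finset.mul_sum]
        rw [Finset.sum_comm]
        refine Finset.sum_congr rfl fun i _ => ?_
        rw [hmom, Finset.sum_mul]
        refine Finset.sum_congr rfl fun h _ => ?_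
        rw [div_pow, neg_pow]; ring
    rw [e4, hm 0 (by omega), zero_mul, zero_sub]
    obtain ⟨s, rfl⟩ : ∃ s, r = s + 1 := ⟨r - 1, by omega⟩
    rw [Finset.sum_range_succ, Finset.sum_eq_zero, zero_add, Nat.add_sub_cancel]
    · push_cast
      field_simp
      ring
    · intro i hi
      rw [Finset.mem_range] at hi
      rw [hm (i + 1) (by omega), zero_mul]
  rw [hL, e3, ← Finset.sum_sub_distrib, Finset.sum_div]
  refine (Finset.abs_sum_le_sum_abs _ _).trans (Finset.sum_le_sum fun h hh => ?_)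
  rw [← mul_sub, abs_mul, mul_div_assoc]
  exact mul_le_mul_of_nonneg_left (hT h hh) (abs_nonneg _)

lemma L_upper (r : ℕ) (hr : 1 ≤ r) (p : ℤ[X]) (hp : (X - 1) ^ r ∣ p) :
    ∃ K : ℝ, 0 < K ∧ ∀ n : ℕ, 1 ≤ n → |L p n| ≤ K / (n : ℝ) ^ r := by
  obtain ⟨q, rfl⟩ := hp
  obtain ⟨hm0, hmr⟩ := mom_pow r q
  set p := (X - 1) ^ r * q with hp
  obtain ⟨S, hS, n0, hn0, hmain⟩ := L_main r hr p hm0
  refine ⟨|mom p r| + S + ∑ n ∈ range n0, |L p n| * (n : ℝ) ^ r + 1, by positivity, ?_⟩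
  intro n hn
  have hnpos : (0 : ℝ) < n := by exact_mod_cast hn
  have hn1 : (1 : ℝ) ≤ n := by exact_mod_cast hn
  rw [le_div_iff₀ (by positivity)]
  have hsum0 : 0 ≤ ∑ n ∈ range n0, |L p n| * (n : ℝ) ^ r := by positivity
  by_cases h : n < n0
  · have h1 : |L p n| * (n : ℝ) ^ r ≤ ∑ n ∈ range n0, |L p n| * (n : ℝ) ^ r :=
      Finset.single_le_sum (f := fun n : ℕ => |L p n| * (n : ℝ) ^ r) (fun i _ => by positivity)
        (Finset.mem_range.mpr h)
    have := abs_nonneg (mom p r)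
    linarith
  · have h1 := hmain n (not_lt.mp h)
    have h2 : |L p n| ≤ |(-1) ^ (r - 1) * mom p r / (r * (n : ℝ) ^ r)| + S / (n : ℝ) ^ (r + 1) := by
      have := abs_sub_abs_le_abs_sub (L p n) ((-1) ^ (r - 1) * mom p r / (r * (n : ℝ) ^ r))
      linarith
    have h3 : |(-1) ^ (r - 1) * mom p r / (r * (n : ℝ) ^ r)| = |mom p r| / (r * (n : ℝ) ^ r) := by
      rw [abs_div, abs_mul, abs_pow, abs_neg, abs_one, one_pow, one_mul,
        abs_of_pos (show (0 : ℝ) < r * (n : ℝ) ^ r by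
          have : (0 : ℝ) < r := by exact_mod_cast hr
          positivity)]
    have hr1 : (1 : ℝ) ≤ r := by exact_mod_cast hr
    have h4 : |mom p r| / (r * (n : ℝ) ^ r) * (n : ℝ) ^ r ≤ |mom p r| := by
      have e : |mom p r| / (r * (n : ℝ) ^ r) * (n : ℝ) ^ r = |mom p r| / r := by
        field_simp
      rw [e]
      exact div_le_self (abs_nonneg _) hr1
    have h5 : S / (n : ℝ) ^ (r + 1) * (n : ℝ) ^ r ≤ S := by
      have e : S / (n : ℝ) ^ (r + 1) * (n : ℝ) ^ r = S / n := by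
        rw [pow_succ]; field_simp
      rw [e]
      exact div_le_self hS hn1
    have h6 : |L p n| * (n : ℝ) ^ r ≤ (|(-1) ^ (r - 1) * mom p r / (r * (n : ℝ) ^ r)|
        + S / (n : ℝ) ^ (r + 1)) * (n : ℝ) ^ r := mul_le_mul_of_nonneg_right h2 (by positivity)
    rw [h3, add_mul] at h6
    linarith

lemma L_lower (r : ℕ) (hr : 1 ≤ r) (q : ℤ[X]) (hq : q.eval 1 ≠ 0) :
    ∃ c : ℝ, 0 < c ∧ ∃ n0 : ℕ, ∀ n : ℕ, n0 ≤ n → c / (n : ℝ) ^ r ≤ |L ((X - 1) ^ r * q) n| := by
  obtain ⟨hm0, hmr⟩ := mom_pow r q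
  set p := (X - 1) ^ r * q with hp
  obtain ⟨S, hS, n0, hn0, hmain⟩ := L_main r hr p hm0
  have hr1 : (1 : ℝ) ≤ r := by exact_mod_cast hr
  have hq1 : (1 : ℝ) ≤ |((q.eval 1 : ℤ) : ℝ)| := by
    have : 1 ≤ |q.eval 1| := Int.one_le_abs hq
    exact_mod_cast this
  have hfac : (1 : ℝ) ≤ (r.factorial : ℝ) := by exact_mod_cast Nat.one_le_iff_ne_zero.mpr (Nat.factorial_ne_zero r)
  have hmom : 1 ≤ |mom p r| := by
    rw [hmr, abs_mul, abs_of_nonneg (by positivity : (0 : ℝ) ≤ (r.factorial : ℝ))]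
    nlinarith
  refine ⟨1 / (2 * r), by positivity, max n0 (⌈2 * r * S⌉₊ + 1), ?_⟩
  intro n hn
  have hn1 : n0 ≤ n := (le_max_left _ _).trans hn
  have hn2 : ⌈2 * r * S⌉₊ + 1 ≤ n := (le_max_right _ _).trans hn
  have hnpos : (0 : ℝ) < n := by
    have : 0 < n := by omega
    exact_mod_cast this
  have hn3 : 2 * r * S ≤ n := by
    have h1 := Nat.le_ceil (2 * (r : ℝ) * S)
    have h2 : ((⌈2 * (r : ℝ) * S⌉₊ : ℕ) : ℝ) ≤ n := by exact_mod_cast (by omega : ⌈2 * (r : ℝ) * S⌉₊ ≤ n)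
    linarith
  have h1 := hmain n hn1
  have h2 : |(-1) ^ (r - 1) * mom p r / (r * (n : ℝ) ^ r)| - |L p n| ≤ S / (n : ℝ) ^ (r + 1) := by
    have := abs_sub_abs_le_abs_sub ((-1) ^ (r - 1) * mom p r / (r * (n : ℝ) ^ r)) (L p n)
    rw [abs_sub_comm] at this
    linarith
  have h3 : |(-1) ^ (r - 1) * mom p r / (r * (n : ℝ) ^ r)| = |mom p r| / (r * (n : ℝ) ^ r) := by
    rw [abs_div, abs_mul, abs_pow, abs_neg, abs_one, one_pow, one_mul,
      abs_of_pos (show (0 : ℝ) < r * (n : ℝ) ^ r by positivity)]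
  rw [h3] at h2
  have h4 : 1 / (r * (n : ℝ) ^ r) ≤ |mom p r| / (r * (n : ℝ) ^ r) :=
    div_le_div_of_nonneg_right hmom (by positivity)
  have h5 : S / (n : ℝ) ^ (r + 1) ≤ 1 / (2 * r) / (n : ℝ) ^ r := by
    rw [div_div, div_le_div_iff₀ (by positivity) (by positivity), pow_succ]
    have : (0 : ℝ) < (n : ℝ) ^ r := by positivity
    nlinarith
  have h6 : 1 / (r * (n : ℝ) ^ r) = 1 / (2 * r) / (n : ℝ) ^ r + 1 / (2 * r) / (n : ℝ) ^ r := by
    field_simp; ring
  linarith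

end Pool.Agent.Helper8.Order
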