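import Mathlib
import Pool.Agent.Helper8.Order.Defs
import Pool.Agent.Helper8.Order.Phase

/-!
# Exponential sums with phases `π τ L p n`

A van der Corput argument: if `(X - 1) ^ (d + 1)` does not divide `p` then the sums of
`exp (i π τ L p n)` over subintervals of `[ε N, N]` are `o(N)`, uniformly for
`N ^ d ≪ τ ≪ N ^ (d + 1)`.
-/

namespace Pool.Agent.Helper8.Order

open Polynomial Finset Filter Topology

lemma norm_cexp (x : ℝ) : ‖Complex.exp ((x : ℝ) * Complex.I)‖ = 1 :=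
  Complex.norm_exp_ofReal_mul_I x

lemma cexp_sub_le (x y : ℝ) :
    ‖Complex.exp ((x : ℝ) * Complex.I) - Complex.exp ((y : ℝ) * Complex.I)‖ ≤ |x - y| := by
  have h1 : Complex.exp ((x : ℝ) * Complex.I) - Complex.exp ((y : ℝ) * Complex.I)
      = Complex.exp ((y : ℝ) * Complex.I) * (Complex.exp (Complex.I * ((x - y : ℝ) : ℂ)) - 1) := by
    rw [mul_sub, ← Complex.exp_add, mul_one]
    congr 2
    push_cast; ring
  rw [h1, norm_mul, norm_cexp, one_mul]
  have := Real.norm_exp_I_mul_ofReal_sub_one_le (x := x - y)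
  simpa [Real.norm_eq_abs] using this

lemma cexp_sub_one_ge (x : ℝ) (hx : |x| ≤ 1) :
    |x| / 2 ≤ ‖Complex.exp ((x : ℝ) * Complex.I) - 1‖ := by
  have h1 : ‖Complex.exp (Complex.I * (x : ℂ)) - 1‖ = ‖2 * Real.sin (x / 2)‖ :=
    Complex.norm_exp_I_mul_ofReal_sub_one x
  rw [mul_comm, h1, norm_mul, Real.norm_eq_abs, Real.norm_eq_abs, abs_two]
  have hpi := Real.pi_gt_three
  have hpi4 := Real.pi_lt_four
  have h2 := Real.mul_abs_le_abs_sin (x := x / 2) (by rw [abs_div, abs_two]; linarith)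
  rw [abs_div, abs_two] at h2
  have h3 : 1 / 2 ≤ 2 / Real.pi := by
    rw [div_le_div_iff₀ (by norm_num) (by linarith)]; linarith
  have h4 : 1 / 2 * (|x| / 2) ≤ 2 / Real.pi * (|x| / 2) :=
    mul_le_mul_of_nonneg_right h3 (by positivity)
  linarith

/-- Kusmin–Landau type estimate for slowly rotating phases. -/
lemma slow_sum (θ : ℕ → ℝ) (a b : ℕ) (hab : a ≤ b) (lam ν : ℝ) (hlam : 0 < lam) (hν : 0 ≤ ν)
    (h1 : ∀ n, a ≤ n → n ≤ b → lam ≤ |θ (n + 1) - θ n|)
    (h2 : ∀ n, a ≤ n → n ≤ b → |θ (n + 1) - θ n| ≤ 1)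
    (h3 : ∀ n, a ≤ n → n < b → |(θ (n + 2) - θ (n + 1)) - (θ (n + 1) - θ n)| ≤ ν) :
    ‖∑ n ∈ Ioc a b, Complex.exp ((θ n : ℝ) * Complex.I)‖
      ≤ 4 / lam + ((b : ℝ) - a) * (4 * ν / lam ^ 2) := by
  set z : ℕ → ℂ := fun n => Complex.exp ((θ n : ℝ) * Complex.I) with hz
  set w : ℕ → ℂ := fun n => Complex.exp (((θ (n + 1) - θ n : ℝ) : ℂ) * Complex.I) - 1 with hw
  have hwlb : ∀ n, a ≤ n → n ≤ b → lam / 2 ≤ ‖w n‖ := by
    intro n ha hb
    have := cexp_sub_one_ge (θ (n + 1) - θ n) (h2 n ha hb)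
    have := h1 n ha hb
    simp only [hw]; linarith
  have hw0 : ∀ n, a ≤ n → n ≤ b → w n ≠ 0 := by
    intro n ha hb h
    have := hwlb n ha hb
    rw [h, norm_zero] at this
    linarith
  have hzw : ∀ n, z (n + 1) - z n = z n * w n := by
    intro n
    simp only [hz, hw]
    rw [mul_sub, ← Complex.exp_add, mul_one]
    congr 2
    push_cast; ring
  have hz1 : ∀ n, ‖z n‖ = 1 := fun n => norm_cexp _
  have hinv : ∀ n, a ≤ n → n ≤ b → ‖(w n)⁻¹‖ ≤ 2 / lam := by
    intro n ha hb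
    rw [norm_inv]
    have h := hwlb n ha hb
    rw [inv_le_comm₀ (by linarith) (by positivity), inv_div]
    exact h
  have hdiff : ∀ n, a ≤ n → n < b → ‖(w (n + 1))⁻¹ - (w n)⁻¹‖ ≤ 4 * ν / lam ^ 2 := by
    intro n ha hb
    have e : (w (n + 1))⁻¹ - (w n)⁻¹ = (w n - w (n + 1)) * ((w (n + 1))⁻¹ * (w n)⁻¹) := by
      have h1 := hw0 n ha hb.le
      have h2 := hw0 (n + 1) (by omega) (by omega)
      field_simp
    have h4 : ‖w n - w (n + 1)‖ ≤ ν := by
      have e2 : w n - w (n + 1) = Complex.exp (((θ (n + 1) - θ n : ℝ) : ℂ) * Complex.I)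
          - Complex.exp (((θ (n + 1 + 1) - θ (n + 1) : ℝ) : ℂ) * Complex.I) := by
        simp only [hw]; ring
      rw [e2]
      refine (cexp_sub_le _ _).trans ?_
      rw [abs_sub_comm]
      exact h3 n ha hb
    rw [e, norm_mul, norm_mul]
    have i1 := hinv (n + 1) (by omega) (by omega)
    have i2 := hinv n ha hb.le
    calc ‖w n - w (n + 1)‖ * (‖(w (n + 1))⁻¹‖ * ‖(w n)⁻¹‖)
        ≤ ν * (2 / lam * (2 / lam)) := by
          apply mul_le_mul h4 (mul_le_mul i1 i2 (norm_nonneg _) (by positivity)) (by positivity) hν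
      _ = 4 * ν / lam ^ 2 := by field_simp; ring
  -- the summation by parts identity
  have key : ∀ k, a + k ≤ b →
      ‖∑ n ∈ Ioc a (a + k), z n - ((w (a + k))⁻¹ * z (a + k + 1) - (w a)⁻¹ * z (a + 1))‖
        ≤ k * (4 * ν / lam ^ 2) := by
    intro k
    induction k with
    | zero => intro _; simp
    | succ k ih =>
      intro hk
      have ih' := ih (by omega)
      rw [show a + (k + 1) = a + k + 1 by ring, Finset.sum_Ioc_succ_top (by omega)]
      have e : ∑ n ∈ Ioc a (a + k), z n + z (a + k + 1)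
          - ((w (a + k + 1))⁻¹ * z (a + k + 1 + 1) - (w a)⁻¹ * z (a + 1))
          = (∑ n ∈ Ioc a (a + k), z n - ((w (a + k))⁻¹ * z (a + k + 1) - (w a)⁻¹ * z (a + 1)))
            - ((w (a + k + 1))⁻¹ - (w (a + k))⁻¹) * z (a + k + 1) := by
        have h5 := hzw (a + k + 1)
        have h6 := hw0 (a + k + 1) (by omega) (by omega)
        have h7 : (w (a + k + 1))⁻¹ * z (a + k + 1 + 1)
            = (w (a + k + 1))⁻¹ * z (a + k + 1) + z (a + k + 1) := by
          have : z (a + k + 1 + 1) = z (a + k + 1) + z (a + k + 1) * w (a + k + 1) := by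
            rw [← h5]; ring
          rw [this]; field_simp
        rw [h7]; ring
      rw [e]
      refine (norm_sub_le _ _).trans ?_
      rw [norm_mul, hz1, mul_one]
      have := hdiff (a + k) (by omega) (by omega)
      push_cast
      linarith
  obtain ⟨k, rfl⟩ := Nat.exists_eq_add_of_le hab
  have hk := key k le_rfl
  have h8 : ‖(w (a + k))⁻¹ * z (a + k + 1) - (w a)⁻¹ * z (a + 1)‖ ≤ 4 / lam := by
    refine (norm_sub_le _ _).trans ?_
    rw [norm_mul, norm_mul, hz1, hz1, mul_one, mul_one]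
    have i1 := hinv (a + k) (by omega) le_rfl
    have i2 := hinv a le_rfl hab
    have : 4 / lam = 2 / lam + 2 / lam := by ring
    linarith
  have h9 := norm_sub_norm_le (∑ n ∈ Ioc a (a + k), z n)
    ((w (a + k))⁻¹ * z (a + k + 1) - (w a)⁻¹ * z (a + 1))
  push_cast
  have : ((a : ℝ) + k - a) * (4 * ν / lam ^ 2) = k * (4 * ν / lam ^ 2) := by ring
  rw [this]
  linarith

/-- Shifting a sum of bounded terms. -/
lemma sum_shift (w : ℕ → ℂ) (hw : ∀ n, ‖w n‖ ≤ 1) (a b : ℕ) (hab : a ≤ b) (h : ℕ) :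
    ‖∑ n ∈ Ioc a b, w (n + h) - ∑ n ∈ Ioc a b, w n‖ ≤ 2 * h := by
  have tele : ∀ (v : ℕ → ℂ) (k : ℕ), ∑ n ∈ Ioc a (a + k), (v (n + 1) - v n) = v (a + k + 1) - v (a + 1) := by
    intro v k
    induction k with
    | zero => simp
    | succ k ih =>
      rw [show a + (k + 1) = a + k + 1 by ring, Finset.sum_Ioc_succ_top (by omega), ih]
      ring
  obtain ⟨k, rfl⟩ := Nat.exists_eq_add_of_le hab
  induction h with
  | zero => simp
  | succ h ih =>
    have e : ∑ n ∈ Ioc a (a + k), w (n + (h + 1)) - ∑ n ∈ Ioc a (a + k), w n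
        = ∑ n ∈ Ioc a (a + k), ((fun m => w (m + h)) (n + 1) - (fun m => w (m + h)) n)
          + (∑ n ∈ Ioc a (a + k), w (n + h) - ∑ n ∈ Ioc a (a + k), w n) := by
      rw [Finset.sum_sub_distrib]
      have : ∀ n, w (n + (h + 1)) = w (n + 1 + h) := fun n => by congr 1; omega
      simp only [this]
      ring
    rw [e, tele (fun m => w (m + h)) k]
    refine (norm_add_le _ _).trans ?_
    have h1 := norm_sub_le (w (a + k + 1 + h)) (w (a + 1 + h))
    have h2 := hw (a + k + 1 + h)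
    have h3 := hw (a + 1 + h)
    push_cast
    linarith

/-- A van der Corput inequality. -/
lemma vdc (z : ℕ → ℂ) (hz : ∀ n, ‖z n‖ ≤ 1) (a b : ℕ) (hab : a ≤ b) (H : ℕ) (hH : 1 ≤ H) (R : ℝ)
    (hR : ∀ u, 1 ≤ u → u < H → ‖∑ n ∈ Ioc a b, z (n + u) * (starRingEnd ℂ) (z n)‖ ≤ R)
    (hR0 : 0 ≤ R) :
    ‖∑ n ∈ Ioc a b, z n‖ ≤ 2 * H +
      Real.sqrt (((b : ℝ) - a) * (((b : ℝ) - a) / H + (R + 2 * H))) := by
  have hHpos : (0 : ℝ) < H := by exact_mod_cast hH
  have hba : (0 : ℝ) ≤ (b : ℝ) - a := by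
    have : (a : ℝ) ≤ b := by exact_mod_cast hab
    linarith
  set S := ∑ n ∈ Ioc a b, z n with hS
  set T := ∑ n ∈ Ioc a b, ∑ h ∈ range H, z (n + h) with hT
  have h1 : ‖(H : ℂ) * S - T‖ ≤ 2 * H ^ 2 := by
    have e : (H : ℂ) * S - T = ∑ h ∈ range H, (S - ∑ n ∈ Ioc a b, z (n + h)) := by
      rw [hT, Finset.sum_comm, Finset.sum_sub_distrib, Finset.sum_const, Finset.card_range,
        nsmul_eq_mul]
    rw [e]
    refine (norm_sum_le _ _).trans ?_
    have : ∀ h ∈ range H, ‖S - ∑ n ∈ Ioc a b, z (n + h)‖ ≤ 2 * H := by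
      intro h hh
      rw [norm_sub_rev]
      refine (sum_shift z hz a b hab h).trans ?_
      have : (h : ℝ) ≤ H := by exact_mod_cast (Finset.mem_range.mp hh).le
      linarith
    refine (Finset.sum_le_sum this).trans ?_
    rw [Finset.sum_const, Finset.card_range, nsmul_eq_mul]
    nlinarith
  -- the off-diagonal terms
  have hoff : ∀ h h' : ℕ, h < H → h' < h →
      ‖∑ n ∈ Ioc a b, z (n + h) * (starRingEnd ℂ) (z (n + h'))‖ ≤ R + 2 * H := by
    intro h h' hh hh'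
    set u := h - h' with hu
    have hu1 : 1 ≤ u := by omega
    have e : ∀ n, z (n + h) * (starRingEnd ℂ) (z (n + h'))
        = (fun m => z (m + u) * (starRingEnd ℂ) (z m)) (n + h') := by
      intro n
      simp only
      rw [show n + h' + u = n + h by omega]
    simp_rw [e]
    have hb1 : ∀ n, ‖(fun m => z (m + u) * (starRingEnd ℂ) (z m)) n‖ ≤ 1 := by
      intro n
      simp only [norm_mul, RCLike.norm_conj]
      exact mul_le_one₀ (hz _) (norm_nonneg _) (hz _)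
    have h2 := sum_shift _ hb1 a b hab h'
    have h3 := hR u hu1 (by omega)
    have h4 := norm_sub_norm_le
      (∑ n ∈ Ioc a b, (fun m => z (m + u) * (starRingEnd ℂ) (z m)) (n + h'))
      (∑ n ∈ Ioc a b, (fun m => z (m + u) * (starRingEnd ℂ) (z m)) n)
    have h5 : (h' : ℝ) ≤ H := by exact_mod_cast (by omega : h' ≤ H)
    simp only at h2 h3 h4 ⊢
    linarith
  have hoff2 : ∀ h h' : ℕ, h < H → h' < H → h ≠ h' →
      ‖∑ n ∈ Ioc a b, z (n + h) * (starRingEnd ℂ) (z (n + h'))‖ ≤ R + 2 * H := by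
    intro h h' hh hh' hne
    rcases lt_or_gt_of_ne hne with hlt | hlt
    · have := hoff h' h hh' hlt
      rw [← RCLike.norm_conj, map_sum]
      simpa [mul_comm] using this
    · exact hoff h h' hh hlt
  have h6 : ∑ n ∈ Ioc a b, ‖∑ h ∈ range H, z (n + h)‖ ^ 2
      ≤ H * ((b : ℝ) - a) + H ^ 2 * (R + 2 * H) := by
    have e : ((∑ n ∈ Ioc a b, ‖∑ h ∈ range H, z (n + h)‖ ^ 2 : ℝ) : ℂ)
        = ∑ h ∈ range H, ∑ h' ∈ range H,
          ∑ n ∈ Ioc a b, z (n + h) * (starRingEnd ℂ) (z (n + h')) := by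
      push_cast
      have : ∀ n, ((‖∑ h ∈ range H, z (n + h)‖ : ℂ)) ^ 2
          = ∑ h ∈ range H, ∑ h' ∈ range H, z (n + h) * (starRingEnd ℂ) (z (n + h')) := by
        intro n
        rw [← Complex.mul_conj', map_sum, Finset.sum_mul_sum]
      simp_rw [this]
      rw [Finset.sum_comm]
      refine Finset.sum_congr rfl fun h _ => ?_
      rw [Finset.sum_comm]
    have h7 : (∑ n ∈ Ioc a b, ‖∑ h ∈ range H, z (n + h)‖ ^ 2 : ℝ)
        ≤ ∑ h ∈ range H, ∑ h' ∈ range H,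
          ‖∑ n ∈ Ioc a b, z (n + h) * (starRingEnd ℂ) (z (n + h'))‖ := by
      have h8 : (∑ n ∈ Ioc a b, ‖∑ h ∈ range H, z (n + h)‖ ^ 2 : ℝ)
          = ‖((∑ n ∈ Ioc a b, ‖∑ h ∈ range H, z (n + h)‖ ^ 2 : ℝ) : ℂ)‖ := by
        rw [Complex.norm_real, Real.norm_eq_abs, abs_of_nonneg (by positivity)]
      rw [h8, e]
      refine (norm_sum_le _ _).trans (Finset.sum_le_sum fun h _ => norm_sum_le _ _)
    refine h7.trans ?_
    have h9 : ∀ h ∈ range H, ∑ h' ∈ range H,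
        ‖∑ n ∈ Ioc a b, z (n + h) * (starRingEnd ℂ) (z (n + h'))‖
        ≤ ((b : ℝ) - a) + H * (R + 2 * H) := by
      intro h hh
      rw [← Finset.add_sum_erase _ _ hh]
      apply add_le_add
      · refine (norm_sum_le _ _).trans ?_
        have : ∀ n ∈ Ioc a b, ‖z (n + h) * (starRingEnd ℂ) (z (n + h))‖ ≤ 1 := by
          intro n _
          rw [norm_mul, RCLike.norm_conj]
          exact mul_le_one₀ (hz _) (norm_nonneg _) (hz _)
        refine (Finset.sum_le_sum this).trans ?_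
        rw [Finset.sum_const, Nat.card_Ioc, nsmul_eq_mul, mul_one, Nat.cast_sub hab]
      · have : ∀ h' ∈ (range H).erase h,
            ‖∑ n ∈ Ioc a b, z (n + h) * (starRingEnd ℂ) (z (n + h'))‖ ≤ R + 2 * H := by
          intro h' hh'
          rw [Finset.mem_erase, Finset.mem_range] at hh'
          exact hoff2 h h' (Finset.mem_range.mp hh) hh'.2 (Ne.symm hh'.1)
        refine (Finset.sum_le_sum this).trans ?_
        rw [Finset.sum_const, nsmul_eq_mul]
        apply mul_le_mul_of_nonneg_right _ (by positivity)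
        have : ((range H).erase h).card ≤ (range H).card := Finset.card_erase_le
        rw [Finset.card_range] at this
        exact_mod_cast this
    refine (Finset.sum_le_sum h9).trans ?_
    rw [Finset.sum_const, Finset.card_range, nsmul_eq_mul]
    nlinarith
  have h10 : ‖T‖ ^ 2 ≤ ((b : ℝ) - a) * (H * ((b : ℝ) - a) + H ^ 2 * (R + 2 * H)) := by
    have h11 : ‖T‖ ≤ ∑ n ∈ Ioc a b, ‖∑ h ∈ range H, z (n + h)‖ := norm_sum_le _ _
    have h12 : (∑ n ∈ Ioc a b, ‖∑ h ∈ range H, z (n + h)‖) ^ 2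
        ≤ (Ioc a b).card * ∑ n ∈ Ioc a b, ‖∑ h ∈ range H, z (n + h)‖ ^ 2 :=
      sq_sum_le_card_mul_sum_sq
    rw [Nat.card_Ioc, Nat.cast_sub hab] at h12
    calc ‖T‖ ^ 2 ≤ (∑ n ∈ Ioc a b, ‖∑ h ∈ range H, z (n + h)‖) ^ 2 :=
          pow_le_pow_left₀ (norm_nonneg _) h11 2
      _ ≤ _ := h12
      _ ≤ _ := mul_le_mul_of_nonneg_left h6 hba
  have h13 : ‖T‖ ≤ H * Real.sqrt (((b : ℝ) - a) * (((b : ℝ) - a) / H + (R + 2 * H))) := by
    have e : ((b : ℝ) - a) * (H * ((b : ℝ) - a) + H ^ 2 * (R + 2 * H))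
        = (H : ℝ) ^ 2 * (((b : ℝ) - a) * (((b : ℝ) - a) / H + (R + 2 * H))) := by
      field_simp
    rw [e] at h10
    have h14 := Real.sqrt_le_sqrt h10
    rw [Real.sqrt_sq (norm_nonneg _), Real.sqrt_mul (by positivity), Real.sqrt_sq hHpos.le] at h14
    exact h14
  have h15 : (H : ℝ) * ‖S‖ ≤ ‖T‖ + 2 * H ^ 2 := by
    have h16 := norm_sub_norm_le ((H : ℂ) * S) T
    rw [norm_mul, Complex.norm_natCast] at h16
    linarith
  have h17 : (H : ℝ) * ‖S‖ ≤ H * (2 * H +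
      Real.sqrt (((b : ℝ) - a) * (((b : ℝ) - a) / H + (R + 2 * H)))) := by
    refine h15.trans ?_
    nlinarith
  exact le_of_mul_le_mul_left h17 hHpos

lemma E_norm (τ : ℝ) (p : ℤ[X]) (n : ℕ) : ‖E τ p n‖ = 1 := norm_cexp _

lemma E_diff (τ : ℝ) (p : ℤ[X]) (u n : ℕ) :
    E τ p (n + u) * (starRingEnd ℂ) (E τ p n) = E τ ((X ^ u - 1) * p) n := by
  unfold E
  rw [← Complex.exp_conj, ← Complex.exp_add]
  congr 1
  rw [map_mul, Complex.conj_I, Complex.conj_ofReal, sub_mul, one_mul, L_sub, L_X_pow_mul]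
  push_cast
  ring

/-- the qualitative exponential sum estimate -/
def ExpBound (d : ℕ) (p : ℤ[X]) : Prop :=
  ∀ ε : ℝ, 0 < ε → ∃ B : ℝ, 0 < B ∧ ∃ N0 : ℕ, ∀ N : ℕ, N0 ≤ N → ∀ τ : ℝ,
    B * (N : ℝ) ^ d ≤ τ → B * τ ≤ (N : ℝ) ^ (d + 1) → ∀ a b : ℕ, ε * N ≤ a → a ≤ b → b ≤ N →
    ‖∑ n ∈ Ioc a b, E τ p n‖ ≤ ε * N

/-- The base case. -/
lemma expBound_base (d : ℕ) (q : ℤ[X]) (hq : q.eval 1 ≠ 0) : ExpBound d ((X - 1) ^ d * q) := by
  intro ε hε
  have hpi := Real.pi_pos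
  set p := (X - 1) ^ d * q with hp
  have e1 : (X - 1) * p = (X - 1) ^ (d + 1) * q := by rw [hp]; ring
  have e2 : (X - 1) * ((X - 1) * p) = (X - 1) ^ (d + 2) * q := by rw [hp]; ring
  obtain ⟨c, hc, n0, hlow⟩ := L_lower (d + 1) (by omega) q hq
  obtain ⟨K, hK, hup⟩ := L_upper (d + 1) (by omega) ((X - 1) ^ (d + 1) * q) (dvd_mul_right _ _)
  obtain ⟨K', hK', hup'⟩ := L_upper (d + 2) (by omega) ((X - 1) ^ (d + 2) * q) (dvd_mul_right _ _)
  rw [← e1] at hlow hup
  rw [← e2] at hup'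
  have hstep : ∀ (p : ℤ[X]) (n : ℕ), L p ((n + 1 : ℕ) : ℝ) - L p n = L ((X - 1) * p) n := by
    intro p n
    rw [sub_mul, one_mul, L_sub]
    have := L_X_pow_mul p 1 n
    rw [pow_one] at this
    rw [this]
    push_cast; ring
  set B1 : ℝ := Real.pi * K / ε ^ (d + 1) with hB1
  obtain ⟨A, hA⟩ : ∃ A : ℝ, A = 4 / (Real.pi * c) + 4 * K' / (Real.pi * c ^ 2 * ε ^ (d + 2)) := ⟨_, rfl⟩
  have hApos : 0 < A := by rw [hA]; positivity
  set B2 : ℝ := A / ε with hB2
  refine ⟨B1 + B2, by positivity, ⌈(n0 + 1) / ε⌉₊ + 1, ?_⟩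
  intro N hN τ hτ1 hτ2 a b ha hab hb
  have hB1pos : 0 < B1 := by positivity
  have hB2pos : 0 < B2 := by positivity
  have hN1 : ((n0 : ℝ) + 1) / ε ≤ N := by
    have h1 := Nat.le_ceil (((n0 : ℝ) + 1) / ε)
    have h2 : ((⌈((n0 : ℝ) + 1) / ε⌉₊ : ℕ) : ℝ) ≤ N := Nat.cast_le.mpr (by omega)
    linarith
  have hN2 : (n0 : ℝ) + 1 ≤ ε * N := by
    rw [div_le_iff₀ hε] at hN1; linarith
  have hNpos : (0 : ℝ) < N := by
    have : 0 < N := by omega
    exact_mod_cast this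
  have hτpos : 0 < τ := lt_of_lt_of_le (by positivity) hτ1
  have han : ∀ n : ℕ, a ≤ n → ε * N ≤ n := fun n hn => ha.trans (by exact_mod_cast hn)
  have hn0 : ∀ n : ℕ, a ≤ n → n0 ≤ n := by
    intro n hn
    have := han n hn
    have h1 : (n0 : ℝ) ≤ n := by linarith
    exact_mod_cast h1
  have hn1 : ∀ n : ℕ, a ≤ n → 1 ≤ n := by
    intro n hn
    have := han n hn
    have h1 : (1 : ℝ) ≤ n := by
      have : (0 : ℝ) ≤ n0 := by positivity
      linarith
    exact_mod_cast h1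
  have hθ : ∀ n : ℕ, Real.pi * τ * L p ((n + 1 : ℕ) : ℝ) - Real.pi * τ * L p n
      = Real.pi * τ * L ((X - 1) * p) n := by
    intro n; rw [← mul_sub, hstep]
  set lam : ℝ := Real.pi * τ * c / (N : ℝ) ^ (d + 1) with hlam
  set ν : ℝ := Real.pi * τ * K' / (ε * N) ^ (d + 2) with hν
  have hlam0 : 0 < lam := by positivity
  have hν0 : 0 ≤ ν := by positivity
  have hmain := slow_sum (fun n => Real.pi * τ * L p n) a b hab lam ν hlam0 hν0
    (by
      intro n hna hnb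
      have h1 := hlow n (hn0 n hna)
      have hn : (0 : ℝ) < n := by exact_mod_cast hn1 n hna
      have hnN : (n : ℝ) ≤ N := by exact_mod_cast hnb.trans hb
      rw [hθ, abs_mul, abs_of_pos (by positivity)]
      rw [hlam, mul_div_assoc]
      apply mul_le_mul_of_nonneg_left _ (by positivity)
      refine le_trans ?_ h1
      apply div_le_div_of_nonneg_left hc.le (by positivity)
      exact pow_le_pow_left₀ hn.le hnN _)
    (by
      intro n hna hnb
      have h1 := hup n (hn1 n hna)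
      have hn : (0 : ℝ) < n := by exact_mod_cast hn1 n hna
      rw [hθ, abs_mul, abs_of_pos (by positivity)]
      have h2 : K / (n : ℝ) ^ (d + 1) ≤ K / (ε * N) ^ (d + 1) := by
        apply div_le_div_of_nonneg_left hK.le (by positivity)
        exact pow_le_pow_left₀ (by positivity) (han n hna) _
      have h3 : Real.pi * τ * |L ((X - 1) * p) n| ≤ Real.pi * τ * (K / (ε * N) ^ (d + 1)) :=
        mul_le_mul_of_nonneg_left (h1.trans h2) (by positivity)
      refine h3.trans ?_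
      rw [mul_pow, ← mul_div_assoc, div_le_one (by positivity)]
      have h4 : B1 * τ ≤ (N : ℝ) ^ (d + 1) := by nlinarith
      rw [hB1, div_mul_eq_mul_div, div_le_iff₀ (by positivity)] at h4
      linarith)
    (by
      intro n hna hnb
      have h1 := hup' n (hn1 n hna)
      have hn : (0 : ℝ) < n := by exact_mod_cast hn1 n hna
      rw [hθ (n + 1), hθ n, ← mul_sub, hstep, abs_mul, abs_of_pos (by positivity)]
      rw [hν, mul_div_assoc]
      apply mul_le_mul_of_nonneg_left _ (by positivity)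
      refine h1.trans ?_
      apply div_le_div_of_nonneg_left hK'.le (by positivity)
      exact pow_le_pow_left₀ (by positivity) (han n hna) _)
  have hE : ∀ n, E τ p n = Complex.exp ((Real.pi * τ * L p n : ℝ) * Complex.I) := fun n => rfl
  simp_rw [hE]
  refine hmain.trans ?_
  -- numerical part
  have hτB : B2 * (N : ℝ) ^ d ≤ τ := by
    have : 0 ≤ B1 * (N : ℝ) ^ d := by positivity
    linarith
  have h5 : 4 / lam ≤ 4 / (Real.pi * c) * (N / B2) := by
    rw [hlam]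
    have e3 : 4 / (Real.pi * τ * c / (N : ℝ) ^ (d + 1))
        = 4 / (Real.pi * c) * ((N : ℝ) ^ (d + 1) / τ) := by field_simp
    rw [e3]
    apply mul_le_mul_of_nonneg_left _ (by positivity)
    rw [div_le_div_iff₀ hτpos hB2pos, pow_succ]
    nlinarith
  have hbaN : (b : ℝ) - a ≤ N := by
    have h1 : (b : ℝ) ≤ N := by exact_mod_cast hb
    have h2 : (0 : ℝ) ≤ a := by positivity
    linarith
  have h6 : ((b : ℝ) - a) * (4 * ν / lam ^ 2)
      ≤ 4 * K' / (Real.pi * c ^ 2 * ε ^ (d + 2)) * (N / B2) := by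
    have h7 : ((b : ℝ) - a) * (4 * ν / lam ^ 2) ≤ N * (4 * ν / lam ^ 2) :=
      mul_le_mul_of_nonneg_right hbaN (by positivity)
    refine h7.trans ?_
    have e4 : N * (4 * ν / lam ^ 2)
        = 4 * K' / (Real.pi * c ^ 2 * ε ^ (d + 2)) * ((N : ℝ) ^ (d + 1) / τ) := by
      rw [hν, hlam, mul_pow]
      field_simp
      ring
    rw [e4]
    apply mul_le_mul_of_nonneg_left _ (by positivity)
    rw [div_le_div_iff₀ hτpos hB2pos, pow_succ]
    nlinarith
  have h8 : (4 / (Real.pi * c) + 4 * K' / (Real.pi * c ^ 2 * ε ^ (d + 2))) * (N / B2) = ε * N := by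
    rw [← hA, hB2]
    field_simp
  linarith

/-- The exponential sum estimate. -/
theorem expBound_aux (d s : ℕ) : ∀ r, r + s = d → ∀ q : ℤ[X], q.eval 1 ≠ 0 →
    ExpBound d ((X - 1) ^ r * q) := by
  induction s with
  | zero =>
    intro r hr q hq
    obtain rfl : r = d := by omega
    exact expBound_base r q hq
  | succ s ih =>
    intro r hr q hq ε hε
    set p := (X - 1) ^ r * q with hp
    set ε' : ℝ := min (ε / 4) (ε ^ 2 / 16) with hε'
    have hε'0 : 0 < ε' := by positivity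
    have hε'1 : ε' ≤ ε / 4 := min_le_left _ _
    have hε'2 : ε' ≤ ε ^ 2 / 16 := min_le_right _ _
    set H : ℕ := ⌈8 / ε ^ 2⌉₊ + 1 with hH
    have hH1 : 1 ≤ H := by omega
    have hHpos : (0 : ℝ) < H := by exact_mod_cast hH1
    have hH2 : 8 / ε ^ 2 ≤ H := by
      have := Nat.le_ceil (8 / ε ^ 2)
      rw [hH]; push_cast; linarith
    have hfac : ∀ u : ℕ, (X ^ u - 1) * p = (X - 1) ^ (r + 1) * ((∑ i ∈ range u, X ^ i) * q) := by
      intro u
      rw [← mul_geom_sum, hp]; ring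
    have hev : ∀ u : ℕ, 1 ≤ u → ((∑ i ∈ range u, X ^ i) * q : ℤ[X]).eval 1 ≠ 0 := by
      intro u hu
      rw [eval_mul, eval_finsetSum]
      simp only [eval_pow, eval_X, one_pow, Finset.sum_const, Finset.card_range, nsmul_eq_mul,
        mul_one]
      exact mul_ne_zero (by exact_mod_cast (by omega : u ≠ 0)) hq
    have hIH : ∀ u : ℕ, ∃ B : ℝ, 0 < B ∧ ∃ N0 : ℕ, 1 ≤ u → ∀ N : ℕ, N0 ≤ N → ∀ τ : ℝ,
        B * (N : ℝ) ^ d ≤ τ → B * τ ≤ (N : ℝ) ^ (d + 1) → ∀ a b : ℕ, ε' * N ≤ a → a ≤ b → b ≤ N →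
        ‖∑ n ∈ Ioc a b, E τ ((X ^ u - 1) * p) n‖ ≤ ε' * N := by
      intro u
      by_cases hu : 1 ≤ u
      · obtain ⟨B, hB, N0, h⟩ := ih (r + 1) (by omega) _ (hev u hu) ε' hε'0
        rw [← hfac] at h
        exact ⟨B, hB, N0, fun _ => h⟩
      · exact ⟨1, one_pos, 0, fun h => absurd h hu⟩
    choose Bf hBf Nf hNf using hIH
    refine ⟨∑ u ∈ range H, Bf u, Finset.sum_pos (fun u _ => hBf u) ⟨0, Finset.mem_range.mpr hH1⟩,
      ∑ u ∈ range H, Nf u + ⌈2 * H / ε'⌉₊, ?_⟩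
    intro N hN τ hτ1 hτ2 a b ha hab hb
    have hNpos0 : (0 : ℝ) ≤ N := by positivity
    have hHN : 2 * (H : ℝ) ≤ ε' * N := by
      have h1 := Nat.le_ceil (2 * (H : ℝ) / ε')
      have h2 : ((⌈2 * (H : ℝ) / ε'⌉₊ : ℕ) : ℝ) ≤ N := by
        exact_mod_cast (by omega : ⌈2 * (H : ℝ) / ε'⌉₊ ≤ N)
      have h3 := h1.trans h2
      rw [div_le_iff₀ hε'0] at h3
      linarith
    have hbig : (0 : ℝ) < ∑ u ∈ range H, Bf u := Finset.sum_pos (fun u _ => hBf u) ⟨0, Finset.mem_range.mpr hH1⟩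
    have hτpos : 0 ≤ τ := le_trans (by positivity) hτ1
    have hR : ∀ u, 1 ≤ u → u < H →
        ‖∑ n ∈ Ioc a b, E τ p (n + u) * (starRingEnd ℂ) (E τ p n)‖ ≤ ε' * N := by
      intro u hu1 hu2
      simp_rw [E_diff]
      have hBu : Bf u ≤ ∑ u ∈ range H, Bf u :=
        Finset.single_le_sum (fun i _ => (hBf i).le) (Finset.mem_range.mpr hu2)
      have hNu : Nf u ≤ ∑ u ∈ range H, Nf u :=
        Finset.single_le_sum (f := Nf) (fun i _ => Nat.zero_le _) (Finset.mem_range.mpr hu2)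
      apply hNf u hu1 N (by omega) τ
      · refine le_trans ?_ hτ1
        exact mul_le_mul_of_nonneg_right hBu (by positivity)
      · refine le_trans ?_ hτ2
        exact mul_le_mul_of_nonneg_right hBu hτpos
      · refine le_trans ?_ ha
        apply mul_le_mul_of_nonneg_right _ hNpos0
        linarith
      · exact hab
      · exact hb
    have h1 := vdc (E τ p) (fun n => (E_norm τ p n).le) a b hab H hH1 (ε' * N) hR (by positivity)
    refine h1.trans ?_
    have hba : (0 : ℝ) ≤ (b : ℝ) - a := by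
      have : (a : ℝ) ≤ b := by exact_mod_cast hab
      linarith
    have hbaN : (b : ℝ) - a ≤ N := by
      have h1 : (b : ℝ) ≤ N := by exact_mod_cast hb
      have h2 : (0 : ℝ) ≤ a := by positivity
      linarith
    have hHinv : ((b : ℝ) - a) / H ≤ ε ^ 2 / 8 * N := by
      rw [div_le_iff₀ hHpos]
      rw [div_le_iff₀ (by positivity)] at hH2
      have : (N : ℝ) * 8 ≤ N * (H * ε ^ 2) := mul_le_mul_of_nonneg_left hH2 hNpos0
      linarith
    have h2 : Real.sqrt (((b : ℝ) - a) * (((b : ℝ) - a) / H + (ε' * N + 2 * H))) ≤ ε / 2 * N := by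
      apply Real.sqrt_le_iff.mpr
      refine ⟨by positivity, ?_⟩
      have h3 : ((b : ℝ) - a) / H + (ε' * N + 2 * H) ≤ ε ^ 2 / 4 * N := by
        have : ε' * N ≤ ε ^ 2 / 16 * N := mul_le_mul_of_nonneg_right hε'2 hNpos0
        linarith
      have h4 : 0 ≤ ((b : ℝ) - a) / H + (ε' * N + 2 * H) := by positivity
      calc ((b : ℝ) - a) * (((b : ℝ) - a) / H + (ε' * N + 2 * H))
          ≤ N * (ε ^ 2 / 4 * N) := mul_le_mul hbaN h3 h4 hNpos0
        _ = (ε / 2 * N) ^ 2 := by ring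
    have h5 : ε' * N ≤ ε / 4 * N := mul_le_mul_of_nonneg_right hε'1 hNpos0
    linarith

theorem expBound (d : ℕ) (p : ℤ[X]) (hp : ¬ ((X - 1) ^ (d + 1) ∣ p)) : ExpBound d p := by
  have hp0 : p ≠ 0 := by
    rintro rfl; exact hp (dvd_zero _)
  obtain ⟨q, hq1, hq2⟩ := Polynomial.exists_eq_pow_rootMultiplicity_mul_and_not_dvd p hp0 1
  set r := p.rootMultiplicity 1 with hr
  have hX : (X - C 1 : ℤ[X]) = X - 1 := by simp
  rw [hX] at hq1 hq2
  have hrd : r ≤ d := by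
    by_contra hcon
    push Not at hcon
    apply hp
    rw [hq1]
    exact (pow_dvd_pow _ hcon).trans (dvd_mul_right _ _)
  rw [hq1]
  apply expBound_aux d (d - r) r (by omega) q
  intro h0
  apply hq2
  rw [← hX, Polynomial.dvd_iff_isRoot]
  exact h0

end Pool.Agent.Helper8.Order
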