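import Mathlib
import Pool.Agent.Helper8.Order.ExpSum

/-!
# Choice of the frequencies
-/

namespace Pool.Agent.Helper8.Order

open Polynomial Finset Filter Topology

/-- relatively dense simultaneous approximation -/
def KronDense : Prop := ∀ (Q : Finset ℕ), (∀ p ∈ Q, p.Prime) → ∀ (σ : ℕ → ℝ),
  (∀ p, σ p = 1 ∨ σ p = -1) → ∀ (δ : ℝ), 0 < δ →
    ∃ G : ℝ, 0 ≤ G ∧ ∀ T0 : ℝ, ∃ τ : ℝ, T0 ≤ τ ∧ τ ≤ T0 + G ∧
      ∃ m : ℕ → ℤ, ∀ p ∈ Q, |τ * Real.log p - m p| ≤ δ ∧ (-1 : ℝ) ^ (m p) = σ p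

/-- a slow diagonal function -/
lemma diag (P : ℕ → ℕ → Prop) (h : ∀ k, ∀ᶠ i in atTop, P k i) :
    ∃ k : ℕ → ℕ, Tendsto k atTop atTop ∧ ∀ᶠ i in atTop, P (k i) i := by
  classical
  refine ⟨fun i => Nat.findGreatest (fun k => P k i) i, ?_, ?_⟩
  · rw [tendsto_atTop]
    intro b
    filter_upwards [h b, eventually_ge_atTop b] with i h1 h2
    exact Nat.le_findGreatest h2 h1
  · filter_upwards [h 0] with i hi
    exact Nat.findGreatest_spec (P := fun k => P k i) (Nat.zero_le i) hi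

lemma pow_step (i : ℕ) (hi : 1 ≤ i) : (i + 1) ^ 4 ≤ i ^ 4 + 15 * i ^ 3 := by
  have h1 : i ^ 2 ≤ i ^ 3 := Nat.pow_le_pow_right hi (by norm_num)
  have h2 : i ^ 1 ≤ i ^ 3 := Nat.pow_le_pow_right hi (by norm_num)
  have h3 : i ^ 0 ≤ i ^ 3 := Nat.pow_le_pow_right hi (by norm_num)
  rw [pow_one] at h2
  rw [pow_zero] at h3
  have : (i + 1) ^ 4 = i ^ 4 + 4 * i ^ 3 + 6 * i ^ 2 + 4 * i + 1 := by ring
  omega

/-- The regime conditions hold in the windows. -/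
lemma regime (d : ℕ) (B : ℝ) : ∀ᶠ i : ℕ in atTop, ∀ N : ℕ, 4 ^ (i ^ 4) ≤ N →
    N ≤ 4 ^ ((i + 1) ^ 4 + i) → ∀ t : ℝ, (2 : ℝ) ^ ((2 * d + 1) * i ^ 4) ≤ t →
    t ≤ 2 * (2 : ℝ) ^ ((2 * d + 1) * (i + 1) ^ 4) →
    B * (N : ℝ) ^ d ≤ t ∧ B * t ≤ (N : ℝ) ^ (d + 1) := by
  obtain ⟨b, hb⟩ : ∃ b : ℕ, B ≤ 2 ^ b := by
    obtain ⟨b, hb⟩ := pow_unbounded_of_one_lt B (show (1 : ℝ) < 2 by norm_num)
    exact ⟨b, hb.le⟩
  filter_upwards [eventually_ge_atTop (32 * (2 * d + 1) + b + 1)] with i hi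
  intro N hN1 hN2 t ht1 ht2
  have hi1 : 1 ≤ i := by omega
  have hstep := pow_step i hi1
  have hi4 : i ^ 4 = i * i ^ 3 := by ring
  have hi3 : 1 ≤ i ^ 3 := Nat.one_le_pow _ _ hi1
  have hbig : 32 * (2 * d + 1) * i ^ 3 + b * i ^ 3 + i ^ 3 ≤ i ^ 4 := by
    rw [hi4]
    calc 32 * (2 * d + 1) * i ^ 3 + b * i ^ 3 + i ^ 3 = (32 * (2 * d + 1) + b + 1) * i ^ 3 := by ring
      _ ≤ i * i ^ 3 := Nat.mul_le_mul_right _ hi
  have hb3 : b ≤ b * i ^ 3 := Nat.le_mul_of_pos_right _ (by omega)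
  have hii : i ≤ i ^ 3 := by
    calc i = i ^ 1 := (pow_one i).symm
      _ ≤ i ^ 3 := Nat.pow_le_pow_right hi1 (by norm_num)
  have hN0 : (0 : ℝ) ≤ N := by positivity
  have ht0 : 0 < t := lt_of_lt_of_le (by positivity) ht1
  constructor
  · have h1 : (N : ℝ) ≤ 4 ^ ((i + 1) ^ 4 + i) := by exact_mod_cast hN2
    have h2 : (N : ℝ) ^ d ≤ 2 ^ (2 * d * ((i + 1) ^ 4 + i)) := by
      calc (N : ℝ) ^ d ≤ ((4 : ℝ) ^ ((i + 1) ^ 4 + i)) ^ d := pow_le_pow_left₀ hN0 h1 d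
        _ = 2 ^ (2 * d * ((i + 1) ^ 4 + i)) := by
          rw [show (4 : ℝ) = 2 ^ 2 by norm_num, ← pow_mul, ← pow_mul]; congr 1; ring
    calc B * (N : ℝ) ^ d ≤ 2 ^ b * 2 ^ (2 * d * ((i + 1) ^ 4 + i)) :=
          mul_le_mul hb h2 (by positivity) (by positivity)
      _ = 2 ^ (b + 2 * d * ((i + 1) ^ 4 + i)) := by rw [pow_add]
      _ ≤ 2 ^ ((2 * d + 1) * i ^ 4) := by
          apply pow_le_pow_right₀ (by norm_num)
          have h3 : 2 * d * ((i + 1) ^ 4 + i) ≤ 2 * d * (i ^ 4 + 15 * i ^ 3 + i ^ 3) :=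
            Nat.mul_le_mul_left _ (by omega)
          have h4 : 2 * d * (i ^ 4 + 15 * i ^ 3 + i ^ 3) = 2 * d * i ^ 4 + 32 * d * i ^ 3 := by ring
          have h5 : (2 * d + 1) * i ^ 4 = 2 * d * i ^ 4 + i ^ 4 := by ring
          have h6 : 32 * (2 * d + 1) * i ^ 3 = 32 * d * i ^ 3 + 32 * d * i ^ 3 + 32 * i ^ 3 := by ring
          omega
      _ ≤ t := ht1
  · have h1 : (4 : ℝ) ^ (i ^ 4) ≤ N := by exact_mod_cast hN1
    have h2 : (2 : ℝ) ^ (2 * (d + 1) * i ^ 4) ≤ (N : ℝ) ^ (d + 1) := by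
      calc (2 : ℝ) ^ (2 * (d + 1) * i ^ 4) = ((4 : ℝ) ^ (i ^ 4)) ^ (d + 1) := by
            rw [show (4 : ℝ) = 2 ^ 2 by norm_num, ← pow_mul, ← pow_mul]; congr 1; ring
        _ ≤ (N : ℝ) ^ (d + 1) := pow_le_pow_left₀ (by positivity) h1 _
    calc B * t ≤ 2 ^ b * (2 * 2 ^ ((2 * d + 1) * (i + 1) ^ 4)) :=
          mul_le_mul hb ht2 ht0.le (by positivity)
      _ = 2 ^ (b + 1 + (2 * d + 1) * (i + 1) ^ 4) := by rw [pow_add, pow_add, pow_one]; ring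
      _ ≤ 2 ^ (2 * (d + 1) * i ^ 4) := by
          apply pow_le_pow_right₀ (by norm_num)
          have h3 : (2 * d + 1) * (i + 1) ^ 4 ≤ (2 * d + 1) * (i ^ 4 + 15 * i ^ 3) :=
            Nat.mul_le_mul_left _ hstep
          have h4 : (2 * d + 1) * (i ^ 4 + 15 * i ^ 3)
              = 2 * d * i ^ 4 + i ^ 4 + 15 * (2 * d + 1) * i ^ 3 := by ring
          have h5 : 2 * (d + 1) * i ^ 4 = 2 * d * i ^ 4 + i ^ 4 + i ^ 4 := by ring
          have h6 : 32 * (2 * d + 1) * i ^ 3 = 15 * (2 * d + 1) * i ^ 3 + 17 * (2 * d + 1) * i ^ 3 := by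
            ring
          have h7 : 0 ≤ 17 * (2 * d + 1) * i ^ 3 := Nat.zero_le _
          omega
      _ ≤ (N : ℝ) ^ (d + 1) := h2

/-- Properties of the frequencies `τ i` of the pieces and of the mixing frequencies `δ i`. -/
structure Freq (d : ℕ) (τ δ : ℕ → ℝ) : Prop where
  size : ∀ᶠ i : ℕ in atTop, (2 : ℝ) ^ ((2 * d + 1) * i ^ 4) ≤ τ i ∧
      τ i ≤ 2 * (2 : ℝ) ^ ((2 * d + 1) * i ^ 4)
  slow : ∀ᶠ i : ℕ in atTop, 1 ≤ δ i ∧ δ i ≤ i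
  kron : ∀ p : ℕ, p.Prime → ∀ η : ℝ, 0 < η → ∀ᶠ i : ℕ in atTop,
      (∃ m : ℤ, (-1 : ℝ) ^ m = -1 ∧ |τ i * Real.log p - m| ≤ η) ∧
      ∃ m : ℤ, |δ i * Real.log p - m| ≤ η
  bound : ∀ p : ℤ[X], ¬ ((X - 1) ^ (d + 1) ∣ p) → ∀ ε : ℝ, 0 < ε → ∀ᶠ i : ℕ in atTop,
      ∀ N : ℕ, 4 ^ (i ^ 4) ≤ N → N ≤ 4 ^ ((i + 1) ^ 4 + i) → ∀ t : ℝ,
      (2 : ℝ) ^ ((2 * d + 1) * i ^ 4) ≤ t → t ≤ 2 * (2 : ℝ) ^ ((2 * d + 1) * (i + 1) ^ 4) →
      ∀ a b : ℕ, ε * N ≤ a → a ≤ b → b ≤ N →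
      ‖∑ n ∈ Ioc a b, E t p n‖ * (δ i + 1) ≤ ε * N

/-- The frequencies. -/
theorem seq (hK : KronDense) (d : ℕ) : ∃ τ δ : ℕ → ℝ, Freq d τ δ := by
  classical
  set Q : ℕ → Finset ℕ := fun k => (Finset.range (k + 1)).filter Nat.Prime with hQ
  have hQp : ∀ k, ∀ p ∈ Q k, p.Prime := fun k p hp => (Finset.mem_filter.mp hp).2
  have hkpos : ∀ k : ℕ, (0 : ℝ) < 1 / ((k : ℝ) + 1) := fun k => by positivity
  choose G hG0 hG using fun k => hK (Q k) (hQp k) (fun _ => -1) (fun _ => Or.inr rfl)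
    (1 / ((k : ℝ) + 1)) (hkpos k)
  choose G' _ hG' using fun k => hK (Q k) (hQp k) (fun _ => 1) (fun _ => Or.inl rfl)
    (1 / ((k : ℝ) + 1)) (hkpos k)
  choose D hD1 _ mD hmD using fun k => hG' k 1
  have : Countable ℤ[X] := Cardinal.mk_le_aleph0_iff.mp
    ((Polynomial.cardinalMk_le_max (R := ℤ)).trans (by simp))
  obtain ⟨e, he⟩ := exists_surjective_nat ℤ[X]
  -- the property to be satisfied
  have hgood : ∀ k, ∀ᶠ i : ℕ in atTop,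
      (∀ j ∈ Finset.range (k + 1), ¬ ((X - 1) ^ (d + 1) ∣ e j) →
        ∀ N : ℕ, 4 ^ (i ^ 4) ≤ N → N ≤ 4 ^ ((i + 1) ^ 4 + i) → ∀ t : ℝ,
        (2 : ℝ) ^ ((2 * d + 1) * i ^ 4) ≤ t → t ≤ 2 * (2 : ℝ) ^ ((2 * d + 1) * (i + 1) ^ 4) →
        ∀ a b : ℕ, 1 / ((k : ℝ) + 1) * N ≤ a → a ≤ b → b ≤ N →
        ‖∑ n ∈ Ioc a b, E t (e j) n‖ * (D k + 1) ≤ 1 / ((k : ℝ) + 1) * N) ∧
      G k ≤ i ∧ D k ≤ i := by
    intro k
    have hDk : 0 < D k + 1 := by linarith [hD1 k]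
    have h1 : ∀ j ∈ Finset.range (k + 1), ∀ᶠ i : ℕ in atTop, ¬ ((X - 1) ^ (d + 1) ∣ e j) →
        ∀ N : ℕ, 4 ^ (i ^ 4) ≤ N → N ≤ 4 ^ ((i + 1) ^ 4 + i) → ∀ t : ℝ,
        (2 : ℝ) ^ ((2 * d + 1) * i ^ 4) ≤ t → t ≤ 2 * (2 : ℝ) ^ ((2 * d + 1) * (i + 1) ^ 4) →
        ∀ a b : ℕ, 1 / ((k : ℝ) + 1) * N ≤ a → a ≤ b → b ≤ N →
        ‖∑ n ∈ Ioc a b, E t (e j) n‖ * (D k + 1) ≤ 1 / ((k : ℝ) + 1) * N := by
      intro j _
      by_cases hj : (X - 1) ^ (d + 1) ∣ e j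
      · exact Eventually.of_forall fun i h => absurd hj h
      · obtain ⟨B, hB, N0, hN0⟩ := expBound d (e j) hj (1 / ((k : ℝ) + 1) / (D k + 1)) (by positivity)
        filter_upwards [regime d B, eventually_ge_atTop (N0 + 1)] with i h1 h2
        intro _ N hNa hNb t ht1 ht2 a b ha hab hb
        obtain ⟨r1, r2⟩ := h1 N hNa hNb t ht1 ht2
        have hNbig : N0 ≤ N := by
          have h3 : i ≤ i ^ 4 := by
            calc i = i ^ 1 := (pow_one i).symm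
              _ ≤ i ^ 4 := Nat.pow_le_pow_right (by omega) (by norm_num)
          have h4 : i ^ 4 < 4 ^ (i ^ 4) := Nat.lt_pow_self (by norm_num)
          omega
        have h5 := hN0 N hNbig t r1 r2 a b
          (le_trans (by
            apply mul_le_mul_of_nonneg_right _ (by positivity)
            exact div_le_self (hkpos k).le (by linarith [hD1 k])) ha) hab hb
        rw [div_mul_eq_mul_div, le_div_iff₀ hDk] at h5
        exact h5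
    filter_upwards [(Finset.eventually_all _).mpr h1,
      tendsto_natCast_atTop_atTop.eventually_ge_atTop (G k),
      tendsto_natCast_atTop_atTop.eventually_ge_atTop (D k)] with i a1 a2 a3
    exact ⟨a1, a2, a3⟩
  obtain ⟨q, hq, hqg⟩ := diag _ hgood
  choose τ hτ1 hτ2 mτ hmτ using fun i : ℕ => hG (q i) ((2 : ℝ) ^ ((2 * d + 1) * i ^ 4))
  have hsmall : ∀ η : ℝ, 0 < η → ∀ᶠ i in atTop, 1 / (((q i : ℕ) : ℝ) + 1) ≤ η := by
    intro η hη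
    have h1 : Tendsto (fun i => (((q i : ℕ) : ℝ))) atTop atTop :=
      tendsto_natCast_atTop_atTop.comp hq
    filter_upwards [h1.eventually_ge_atTop (1 / η)] with i hi
    rw [div_le_iff₀ (by positivity)]
    rw [div_le_iff₀ hη] at hi
    nlinarith
  refine ⟨τ, fun i => D (q i), ?_, ?_, ?_, ?_⟩
  · filter_upwards [hqg] with i hi
    refine ⟨hτ1 i, (hτ2 i).trans ?_⟩
    have h1 : (i : ℝ) ≤ (2 : ℝ) ^ ((2 * d + 1) * i ^ 4) := by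
      have h2 : i ≤ (2 * d + 1) * i ^ 4 := by
        rcases Nat.eq_zero_or_pos i with h | h
        · subst h; simp
        · calc i = i ^ 1 := (pow_one i).symm
            _ ≤ i ^ 4 := Nat.pow_le_pow_right h (by norm_num)
            _ ≤ (2 * d + 1) * i ^ 4 := Nat.le_mul_of_pos_left _ (by omega)
      have h3 : i < 2 ^ ((2 * d + 1) * i ^ 4) := lt_of_le_of_lt h2 (Nat.lt_pow_self (by norm_num))
      exact_mod_cast h3.le
    linarith [hi.2.1]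
  · filter_upwards [hqg] with i hi
    exact ⟨hD1 _, hi.2.2⟩
  · intro p hp η hη
    filter_upwards [hsmall η hη, hq.eventually_ge_atTop p] with i h1 h2
    have hpQ : p ∈ Q (q i) := by
      simp only [hQ, Finset.mem_filter, Finset.mem_range]
      exact ⟨by omega, hp⟩
    refine ⟨⟨mτ i p, (hmτ i p hpQ).2, (hmτ i p hpQ).1.trans h1⟩, mD (q i) p, (hmD (q i) p hpQ).1.trans h1⟩
  · intro p hp ε hε
    obtain ⟨j, rfl⟩ := he p
    filter_upwards [hqg, hsmall ε hε, hq.eventually_ge_atTop j] with i h1 h2 h3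
    intro N hNa hNb t ht1 ht2 a b ha hab hb
    have hN0 : (0 : ℝ) ≤ N := by positivity
    have h4 := h1.1 j (Finset.mem_range.mpr (by omega)) hp N hNa hNb t ht1 ht2 a b
      ((mul_le_mul_of_nonneg_right h2 hN0).trans ha) hab hb
    exact h4.trans (mul_le_mul_of_nonneg_right h2 hN0)

end Pool.Agent.Helper8.Order
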