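import Mathlib
import Pool.Agent.Helper8.DilationLib
import Pool.Agent.Helper8.Order.Seq

/-!
# The function and its local structure
-/

namespace Pool.Agent.Helper8.Order

open Polynomial Finset Filter Topology Pool.Agent.Helper8.Dilation

/-- step index -/
def J (n : ℕ) : ℕ := Nat.sqrt (Nat.log 4 n)

/-- block index -/
def I (n : ℕ) : ℕ := Nat.sqrt (J n)

/-- the glued function -/
noncomputable def glued (τ δ : ℕ → ℝ) (n : ℕ) : ℝ :=
  mixf (τ (I n)) (τ (I n + 1)) (δ (I n)) (((J n - I n * I n : ℕ) : ℝ) / (2 * (I n : ℝ) + 1)) n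

lemma glued_pm (τ δ : ℕ → ℝ) (n : ℕ) : glued τ δ n = 1 ∨ glued τ δ n = -1 := mixf_pm _ _ _ _ _

lemma J_spec (n : ℕ) (hn : 1 ≤ n) : 4 ^ (J n * J n) ≤ n ∧ n < 4 ^ ((J n + 1) * (J n + 1)) := by
  unfold J
  set l := Nat.log 4 n with hl
  have h1 : 4 ^ l ≤ n := Nat.pow_log_le_self 4 (by omega)
  have h2 : n < 4 ^ (l + 1) := Nat.lt_pow_succ_log_self (by norm_num) n
  have h3 : Nat.sqrt l * Nat.sqrt l ≤ l := Nat.sqrt_le l
  have h4 : l < (Nat.sqrt l + 1) * (Nat.sqrt l + 1) := Nat.lt_succ_sqrt l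
  constructor
  · exact (Nat.pow_le_pow_right (by norm_num) h3).trans h1
  · exact lt_of_lt_of_le h2 (Nat.pow_le_pow_right (by norm_num) (by omega))

lemma J_mono {m n : ℕ} (h : m ≤ n) : J m ≤ J n := Nat.sqrt_le_sqrt (Nat.log_mono_right h)

lemma J_ge (n t : ℕ) (h : 4 ^ (t * t) ≤ n) : t ≤ J n := by
  unfold J
  rw [Nat.le_sqrt]
  exact Nat.le_log_of_pow_le (by norm_num) h

lemma J_lt (n t : ℕ) (hn : 1 ≤ n) (h : n < 4 ^ ((t + 1) * (t + 1))) : J n ≤ t := by
  by_contra hcon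
  push Not at hcon
  have h1 := (J_spec n hn).1
  have h2 : (t + 1) * (t + 1) ≤ J n * J n := Nat.mul_le_mul hcon hcon
  have h3 : 4 ^ ((t + 1) * (t + 1)) ≤ 4 ^ (J n * J n) := Nat.pow_le_pow_right (by norm_num) h2
  omega

/-- Local structure of `glued`. -/
lemma window (τ δ : ℕ → ℝ) (ε : ℝ) (hε : 0 < ε) (hε1 : ε ≤ 1) (C : ℕ) (i0 : ℕ) :
    ∀ᶠ N : ℕ in atTop, ∃ i : ℕ, i0 ≤ i ∧ 4 ^ (i ^ 4) ≤ N ∧ N ≤ 4 ^ ((i + 1) ^ 4 + i) ∧
      ∃ κ : ℝ, 0 ≤ κ ∧ κ + 1 / (2 * (i : ℝ) + 1) ≤ 1 ∧ ∃ M : ℕ, ∀ n : ℕ, ε * N ≤ n → n ≤ C * N →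
        glued τ δ n = mixf (τ i) (τ (i + 1)) (δ i)
          (if n < M then κ else κ + 1 / (2 * (i : ℝ) + 1)) n := by
  obtain ⟨b, hb⟩ : ∃ b : ℕ, ((C : ℝ) + 1) / ε ≤ 4 ^ b := by
    obtain ⟨b, hb⟩ := pow_unbounded_of_one_lt (((C : ℝ) + 1) / ε) (show (1 : ℝ) < 4 by norm_num)
    exact ⟨b, hb.le⟩
  set i1 := max i0 b with hi1
  have hbig : ∀ᶠ N : ℕ in atTop, ((4 ^ (i1 ^ 4) : ℕ) : ℝ) + 1 ≤ ε * N := by
    have := (tendsto_natCast_atTop_atTop (R := ℝ)).const_mul_atTop hε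
    exact this.eventually_ge_atTop _
  filter_upwards [hbig] with N hN
  have hNpos : (0 : ℝ) < N := by
    by_contra hcon
    push Not at hcon
    have h0 : ε * (N : ℝ) ≤ 0 := mul_nonpos_of_nonneg_of_nonpos hε.le hcon
    have h1 : (0 : ℝ) ≤ ((4 ^ (i1 ^ 4) : ℕ) : ℝ) := by positivity
    linarith
  set n0 := ⌈ε * (N : ℝ)⌉₊ with hn0
  have hn0a : ε * N ≤ n0 := Nat.le_ceil _
  have hn0b : (n0 : ℝ) < ε * N + 1 := Nat.ceil_lt_add_one (by positivity)
  have hn0c : 4 ^ (i1 ^ 4) ≤ n0 := by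
    have : ((4 ^ (i1 ^ 4) : ℕ) : ℝ) ≤ n0 := by linarith
    exact_mod_cast this
  have hn0N : n0 ≤ N := by
    apply Nat.ceil_le.mpr
    nlinarith
  have hn01 : 1 ≤ n0 := le_trans (Nat.one_le_pow _ _ (by norm_num)) hn0c
  set t := J n0 with ht
  obtain ⟨ht1, ht2⟩ := J_spec n0 hn01
  have hti : i1 * i1 ≤ t := by
    apply J_ge
    calc 4 ^ (i1 * i1 * (i1 * i1)) = 4 ^ (i1 ^ 4) := by congr 1; ring
      _ ≤ n0 := hn0c
  set i := Nat.sqrt t with hi
  have hi_a : i * i ≤ t := Nat.sqrt_le t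
  have hi_b : t < (i + 1) * (i + 1) := Nat.lt_succ_sqrt t
  have hi1i : i1 ≤ i := Nat.le_sqrt.mpr hti
  have hi0i : i0 ≤ i := (le_max_left _ _).trans hi1i
  have hbi : b ≤ i := (le_max_right _ _).trans hi1i
  have hNle : (N : ℝ) ≤ n0 / ε := by rw [le_div_iff₀ hε]; linarith
  have hinv : 1 / ε ≤ 4 ^ b := by
    refine le_trans ?_ hb
    apply div_le_div_of_nonneg_right _ hε.le
    have : (0 : ℝ) ≤ C := by positivity
    linarith
  have hinvC : (C : ℝ) / ε ≤ 4 ^ b := by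
    refine le_trans ?_ hb
    apply div_le_div_of_nonneg_right _ hε.le
    linarith
  have hn0R : (n0 : ℝ) ≤ 4 ^ ((t + 1) * (t + 1)) := by exact_mod_cast ht2.le
  -- upper bound for `C * N`
  have hCN : ∀ n : ℕ, n ≤ C * N → n < 4 ^ ((t + 1 + 1) * (t + 1 + 1)) := by
    intro n hn
    have h1 : (n : ℝ) ≤ C * N := by exact_mod_cast hn
    have h2 : (n : ℝ) ≤ 4 ^ b * 4 ^ ((t + 1) * (t + 1)) := by
      calc (n : ℝ) ≤ C * N := h1
        _ ≤ C * (n0 / ε) := mul_le_mul_of_nonneg_left hNle (by positivity)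
        _ = C / ε * n0 := by ring
        _ ≤ 4 ^ b * 4 ^ ((t + 1) * (t + 1)) := mul_le_mul hinvC hn0R (by positivity) (by positivity)
    have h3 : (n : ℝ) < 4 ^ ((t + 1 + 1) * (t + 1 + 1)) := by
      refine lt_of_le_of_lt h2 ?_
      rw [← pow_add]
      apply pow_lt_pow_right₀ (by norm_num)
      have hit : i ≤ t := (Nat.le_mul_self i).trans hi_a
      have : (t + 1 + 1) * (t + 1 + 1) = (t + 1) * (t + 1) + 2 * t + 3 := by ring
      omega
    exact_mod_cast h3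
  refine ⟨i, hi0i, ?_, ?_, ((t - i * i : ℕ) : ℝ) / (2 * i + 1), by positivity, ?_,
    4 ^ ((t + 1) * (t + 1)), ?_⟩
  · calc 4 ^ (i ^ 4) = 4 ^ ((i * i) * (i * i)) := by congr 1; ring
      _ ≤ 4 ^ (t * t) := Nat.pow_le_pow_right (by norm_num) (Nat.mul_le_mul hi_a hi_a)
      _ ≤ n0 := ht1
      _ ≤ N := hn0N
  · have h1 : (N : ℝ) ≤ 4 ^ ((i + 1) ^ 4 + i) := by
      calc (N : ℝ) ≤ n0 / ε := hNle
        _ = 1 / ε * n0 := by ring
        _ ≤ 4 ^ b * 4 ^ ((t + 1) * (t + 1)) := mul_le_mul hinv hn0R (by positivity) (by positivity)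
        _ = 4 ^ (b + (t + 1) * (t + 1)) := by rw [pow_add]
        _ ≤ 4 ^ ((i + 1) ^ 4 + i) := by
            apply pow_le_pow_right₀ (by norm_num)
            have h2 : (t + 1) * (t + 1) ≤ ((i + 1) * (i + 1)) * ((i + 1) * (i + 1)) :=
              Nat.mul_le_mul hi_b hi_b
            have h3 : ((i + 1) * (i + 1)) * ((i + 1) * (i + 1)) = (i + 1) ^ 4 := by ring
            omega
    exact_mod_cast h1
  · rw [← add_div, div_le_one (by positivity)]
    have : t - i * i + 1 ≤ 2 * i + 1 := by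
      have : (i + 1) * (i + 1) = i * i + 2 * i + 1 := by ring
      omega
    exact_mod_cast this
  · intro n hn1 hn2
    have hnn0 : n0 ≤ n := Nat.ceil_le.mpr hn1
    have hJ1 : t ≤ J n := J_mono hnn0
    have hJ2 : J n ≤ t + 1 := J_lt n (t + 1) (by omega) (hCN n hn2)
    split_ifs with hM
    · have hJ : J n = t := le_antisymm (J_lt n t (by omega) hM) hJ1
      have hI : I n = i := by unfold I; rw [hJ]
      unfold glued
      rw [hI, hJ]
    · push Not at hM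
      have hJ : J n = t + 1 := le_antisymm hJ2 (J_ge n (t + 1) hM)
      have hκ : ((t - i * i : ℕ) : ℝ) / (2 * i + 1) + 1 / (2 * (i : ℝ) + 1)
          = ((t + 1 - i * i : ℕ) : ℝ) / (2 * i + 1) := by
        rw [← add_div]
        congr 1
        rw [show t + 1 - i * i = (t - i * i) + 1 by omega]
        push_cast; ring
      rw [hκ]
      by_cases hcase : t + 1 < (i + 1) * (i + 1)
      · have hI : I n = i := by
          unfold I; rw [hJ]
          apply le_antisymm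
          · exact Nat.lt_succ_iff.mp (Nat.sqrt_lt.mpr hcase)
          · exact Nat.le_sqrt.mpr (by omega)
        unfold glued
        rw [hI, hJ]
      · have hte : t + 1 = (i + 1) * (i + 1) := by omega
        have hI : I n = i + 1 := by
          unfold I; rw [hJ, hte, Nat.sqrt_eq]
        unfold glued
        rw [hI, hJ, hte, Nat.sub_self, Nat.cast_zero, zero_div, mixf_zero]
        have h1 : (i + 1) * (i + 1) - i * i = 2 * i + 1 := by
          have : (i + 1) * (i + 1) = i * i + (2 * i + 1) := by ring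
          omega
        rw [h1]
        push_cast
        rw [div_self (by positivity), mixf_one]

end Pool.Agent.Helper8.Order
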