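import Mathlib
import Pool.Agent.Helper8.Order.Window
import Pool.Agent.Helper13.Order.Near
import Pool.Agent.Helper13.Order.KronDense

/-!
# The glued function is almost Liouville
-/

namespace Pool.Agent.Helper8.Order

open Polynomial Finset Filter Topology Pool.Agent.Helper8.Dilation

lemma kronDense : KronDense := fun Q hQ σ hσ δ hδ =>
  Pool.Agent.Helper13.Order.kron_dense Q hQ σ hσ δ hδ

lemma E_const (t : ℝ) (m n : ℕ) : E t (C (2 * (m : ℤ))) n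
    = Complex.exp ((2 * Real.pi * m * (t * Real.log n) : ℝ) * Complex.I) := by
  unfold E
  have h : L (C (2 * (m : ℤ))) (n : ℝ) = 2 * m * Real.log n := by
    have := L_monomial (2 * (m : ℤ)) 0 (n : ℝ)
    rw [pow_zero, mul_one] at this
    rw [this]; push_cast; ring_nf
  rw [h]
  congr 2
  push_cast; ring

/-- Few `n` have `t log n` close to integers, for all `t` in the regime. -/
lemma cnt_near {d : ℕ} {τ δ : ℕ → ℝ} (hF : Freq d τ δ) (ε : ℝ) (hε : 0 < ε) :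
    ∃ η : ℝ, 0 < η ∧ ∀ ε' : ℝ, 0 < ε' → ∀ᶠ i : ℕ in atTop, ∀ N : ℕ, 4 ^ (i ^ 4) ≤ N →
      N ≤ 4 ^ ((i + 1) ^ 4 + i) → ∀ t : ℝ,
      (2 : ℝ) ^ ((2 * d + 1) * i ^ 4) ≤ t → t ≤ 2 * (2 : ℝ) ^ ((2 * d + 1) * (i + 1) ^ 4) →
      ∀ a : ℕ, ε' * N ≤ a → a ≤ N →
      cnt {n | a < n ∧ n ∈ Nr t 0 η} N ≤ ε * N := by
  classical
  obtain ⟨η, hη, δ1, hδ1, K, hK⟩ := Pool.Agent.Helper13.Order.near ε hε
  refine ⟨η, hη, fun ε' hε' => ?_⟩
  have h1 : ∀ m ∈ Finset.Icc 1 K, ∀ᶠ i : ℕ in atTop,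
      ∀ N : ℕ, 4 ^ (i ^ 4) ≤ N → N ≤ 4 ^ ((i + 1) ^ 4 + i) → ∀ t : ℝ,
      (2 : ℝ) ^ ((2 * d + 1) * i ^ 4) ≤ t → t ≤ 2 * (2 : ℝ) ^ ((2 * d + 1) * (i + 1) ^ 4) →
      ∀ a b : ℕ, min ε' δ1 * N ≤ a → a ≤ b → b ≤ N →
      ‖∑ n ∈ Ioc a b, E t (C (2 * (m : ℤ))) n‖ * (δ i + 1) ≤ min ε' δ1 * N := by
    intro m hm
    rw [Finset.mem_Icc] at hm
    apply hF.bound _ _ _ (lt_min hε' hδ1)
    rintro ⟨q, hq⟩
    have h2 := congrArg (Polynomial.eval 1) hq
    simp only [eval_C, eval_mul, eval_pow, eval_sub, eval_X, eval_one, sub_self] at h2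
    rw [zero_pow (by omega), zero_mul] at h2
    omega
  filter_upwards [(Finset.eventually_all _).mpr h1, hF.slow] with i hi hδi
  intro N hN1 hN2 t ht1 ht2 a ha haN
  have hN0 : (0 : ℝ) ≤ N := by positivity
  have hA : ((Ioc a N).card : ℝ) ≤ N := by
    rw [Nat.card_Ioc]; exact_mod_cast Nat.sub_le N a
  have hsum : ∀ m : ℕ, 1 ≤ m → m ≤ K →
      ‖∑ n ∈ Ioc a N, Complex.exp ((2 * Real.pi * m * (t * Real.log n) : ℝ) * Complex.I)‖
        ≤ δ1 * N := by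
    intro m hm1 hm2
    have h3 := hi m (Finset.mem_Icc.mpr ⟨hm1, hm2⟩) N hN1 hN2 t ht1 ht2 a N
      ((mul_le_mul_of_nonneg_right (min_le_left _ _) hN0).trans ha) haN le_rfl
    simp_rw [E_const] at h3
    have h4 : ‖∑ n ∈ Ioc a N, Complex.exp ((2 * Real.pi * m * (t * Real.log n) : ℝ) * Complex.I)‖ * 1
        ≤ ‖∑ n ∈ Ioc a N, Complex.exp ((2 * Real.pi * m * (t * Real.log n) : ℝ) * Complex.I)‖
          * (δ i + 1) := mul_le_mul_of_nonneg_left (by linarith [hδi.1]) (norm_nonneg _)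
    have h5 : min ε' δ1 * N ≤ δ1 * N := mul_le_mul_of_nonneg_right (min_le_right _ _) hN0
    linarith
  have h6 := hK N (Ioc a N) (fun n => t * Real.log n) hA hsum
    ((Ioc a N).filter (fun n => n ∈ Nr t 0 η)) (Finset.filter_subset _ _)
    (by
      intro n hn
      obtain ⟨k, hk⟩ := (Finset.mem_filter.mp hn).2
      exact ⟨k, by simpa using hk⟩)
  refine le_trans ?_ h6
  unfold cnt
  have h7 : ({n | a < n ∧ n ∈ Nr t 0 η} ∩ Set.Ioc 0 N)
      ⊆ (((Ioc a N).filter (fun n => n ∈ Nr t 0 η) : Finset ℕ) : Set ℕ) := by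
    rintro n ⟨⟨hn1, hn2⟩, hn3⟩
    rw [Finset.mem_coe, Finset.mem_filter, Finset.mem_Ioc]
    exact ⟨⟨hn1, hn3.2⟩, hn2⟩
  have h8 := Set.ncard_le_ncard h7 (Finset.finite_toSet _)
  rw [Set.ncard_coe_finset] at h8
  exact_mod_cast h8

lemma Nr_mono {t α η η' : ℝ} (h : η ≤ η') : Nr t α η ⊆ Nr t α η' := by
  rintro n ⟨k, hk⟩
  exact ⟨k, hk.trans h⟩

lemma i_le_log {i N : ℕ} (h : 4 ^ (i ^ 4) ≤ N) : (i : ℝ) ≤ Real.log N := by
  have h1 : ((4 ^ (i ^ 4) : ℕ) : ℝ) ≤ N := by exact_mod_cast h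
  have h2 : Real.log ((4 ^ (i ^ 4) : ℕ) : ℝ) ≤ Real.log N := by
    apply Real.log_le_log _ h1
    positivity
  push_cast at h2
  rw [Real.log_pow] at h2
  have h3 : (1 : ℝ) ≤ Real.log 4 := by
    rw [Real.le_log_iff_exp_le (by norm_num)]
    linarith [Real.exp_one_lt_d9]
  have h4 : (i : ℝ) ≤ (i ^ 4 : ℕ) := by
    rcases Nat.eq_zero_or_pos i with h | h
    · subst h; simp
    · exact_mod_cast (calc i = i ^ 1 := (pow_one i).symm
        _ ≤ i ^ 4 := Nat.pow_le_pow_right h (by norm_num))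
  have h5 : (0 : ℝ) ≤ (i ^ 4 : ℕ) := by positivity
  nlinarith

/-- `glued` is almost Liouville. -/
theorem glued_almost {d : ℕ} {τ δ : ℕ → ℝ} (hF : Freq d τ δ) (p : ℕ) (hp : p.Prime) :
    DZ {n | glued τ δ (p * n) ≠ - glued τ δ n} := by
  classical
  intro ε hε
  have hp0 : (0 : ℝ) < p := by exact_mod_cast hp.pos
  have hp1 : (1 : ℝ) ≤ p := by exact_mod_cast hp.one_le
  set ε1 : ℝ := min (ε / 40) (1 / 2) with hε1
  have hε1pos : 0 < ε1 := by positivity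
  have hε1a : ε1 ≤ ε / 40 := min_le_left _ _
  have hε1b : ε1 ≤ 1 / 2 := min_le_right _ _
  obtain ⟨η0, hη0, hnear⟩ := cnt_near hF ε1 hε1pos
  set η : ℝ := min η0 (ε1 / 63) with hη
  have hηpos : 0 < η := by positivity
  have hηa : η ≤ η0 := min_le_left _ _
  have hηb : η ≤ ε1 / 63 := min_le_right _ _
  have hηc : η ≤ 1 / 2 := by linarith
  have hev : ∀ᶠ i : ℕ in atTop, (63 * (1 / (2 * (2 * (i : ℝ) + 1))) * p ≤ ε1) := by
    filter_upwards [tendsto_natCast_atTop_atTop.eventually_ge_atTop (63 * (p : ℝ) / ε1)] with i hi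
    rw [div_le_iff₀ hε1pos] at hi
    have h1 : (0 : ℝ) < 2 * (2 * (i : ℝ) + 1) := by positivity
    have h2 : 63 * (1 / (2 * (2 * (i : ℝ) + 1))) * p = 63 * p / (2 * (2 * (i : ℝ) + 1)) := by ring
    rw [h2, div_le_iff₀ h1]
    nlinarith
  obtain ⟨i0, hi0⟩ := Filter.eventually_atTop.mp
    (((hF.kron p hp η hηpos).and ((tendsto_add_atTop_nat 1).eventually (hF.kron p hp η hηpos))).and
    ((hF.size.and ((tendsto_add_atTop_nat 1).eventually hF.size)).and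
    ((hF.slow.and (hnear ε1 hε1pos)).and hev)))
  have hlog : ∀ᶠ N : ℕ in atTop, Real.log N * (Real.log p + Real.log N) + 3 ≤ ε1 * N := by
    have h1 : (fun x : ℝ => Real.log x * (Real.log p + Real.log x) + 3) =o[atTop] (fun x : ℝ => x) := by
      have h2 : (fun x : ℝ => Real.log p * Real.log x) =o[atTop] (fun x : ℝ => x) :=
        Real.isLittleO_log_id_atTop.const_mul_left _
      have h3 : (fun x : ℝ => Real.log x ^ 2) =o[atTop] (fun x : ℝ => x) :=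
        Real.isLittleO_pow_log_id_atTop
      have h4 : (fun _ : ℝ => (3 : ℝ)) =o[atTop] (fun x : ℝ => x) :=
        Asymptotics.isLittleO_const_id_atTop 3
      refine ((h2.add h3).add h4).congr_left fun x => ?_
      ring
    have h5 := (h1.comp_tendsto tendsto_natCast_atTop_atTop).bound hε1pos
    filter_upwards [h5] with N hN
    simp only [Function.comp, Real.norm_eq_abs, Nat.abs_cast] at hN
    exact (le_abs_self _).trans hN
  have hbigN : ∀ᶠ N : ℕ in atTop, (2 : ℝ) ≤ ε1 * N := by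
    have := (tendsto_natCast_atTop_atTop (R := ℝ)).const_mul_atTop hε1pos
    exact this.eventually_ge_atTop _
  filter_upwards [window τ δ ε1 hε1pos (by linarith) p i0, hlog, hbigN] with N hwin hlogN hN2
  obtain ⟨i, hi, hNa, hNb, κ, hκ0, hκ1, M, hM⟩ := hwin
  obtain ⟨⟨⟨⟨m1, hm1s, hm1⟩, m, hm⟩, ⟨m2, hm2s, hm2⟩, -⟩, ⟨⟨hs1, hs2⟩, hs3, hs4⟩,
    ⟨⟨hδ1, hδ2⟩, hnr⟩, hi63⟩ := hi0 i hi
  have hNpos : (0 : ℝ) < N := by
    by_contra hcon
    push Not at hcon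
    have : ε1 * (N : ℝ) ≤ 0 := mul_nonpos_of_nonneg_of_nonpos hε1pos.le hcon
    linarith
  have hN1 : 1 ≤ N := by exact_mod_cast hNpos
  set η1 : ℝ := 1 / (2 * (2 * (i : ℝ) + 1)) with hη1
  have hη1pos : 0 < η1 := by positivity
  have hη1le : η1 ≤ 1 / 2 := by
    rw [hη1, div_le_div_iff₀ (by positivity) (by norm_num)]
    have : (0 : ℝ) ≤ i := by positivity
    linarith
  have h2η1 : 1 / (2 * (i : ℝ) + 1) = 2 * η1 := by rw [hη1]; field_simp
  set a := ⌈ε1 * (N : ℝ)⌉₊ with ha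
  have ha1 : ε1 * N ≤ a := Nat.le_ceil _
  have ha2 : (a : ℝ) < ε1 * N + 1 := Nat.ceil_lt_add_one (by positivity)
  have haN : a ≤ N := by
    apply Nat.ceil_le.mpr
    nlinarith
  -- near sets
  have hr1 : (2 : ℝ) ^ ((2 * d + 1) * i ^ 4) ≤ τ i := hs1
  have hpowmono : (2 : ℝ) ^ ((2 * d + 1) * i ^ 4) ≤ 2 ^ ((2 * d + 1) * (i + 1) ^ 4) := by
    apply pow_le_pow_right₀ (by norm_num)
    apply Nat.mul_le_mul_left
    exact Nat.pow_le_pow_left (by omega) 4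
  have c5 := hnr N hNa hNb (τ i) hs1 (by linarith) a ha1 haN
  have c6 := hnr N hNa hNb (τ (i + 1)) (by linarith) hs4 a ha1 haN
  have hil : (i : ℝ) ≤ Real.log N := i_le_log hNa
  have hlogN0 : 0 ≤ Real.log N := Real.log_nonneg (by exact_mod_cast hN1)
  have hlogp0 : 0 ≤ Real.log p := Real.log_nonneg hp1
  have hδlog : δ i * Real.log N + 3 ≤ ε1 * N := by
    have : δ i * Real.log N ≤ Real.log N * (Real.log p + Real.log N) := by
      have h1 : δ i ≤ Real.log N := hδ2.trans hil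
      nlinarith
    linarith
  have hδlogp : δ i * Real.log ((p * N : ℕ) : ℝ) + 3 ≤ ε1 * N := by
    have h1 : Real.log ((p * N : ℕ) : ℝ) = Real.log p + Real.log N := by
      push_cast
      rw [Real.log_mul hp0.ne' hNpos.ne']
    rw [h1]
    have h2 : δ i ≤ Real.log N := hδ2.trans hil
    have : δ i * (Real.log p + Real.log N) ≤ Real.log N * (Real.log p + Real.log N) :=
      mul_le_mul_of_nonneg_right h2 (by positivity)
    linarith
  have c1 := cnt_Nr (δ i) (κ + η1) η1 hδ1 hη1pos hη1le N hN1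
  have c2 := cnt_Nr (δ i) (κ + η1) η1 hδ1 hη1pos hη1le (p * N) (Nat.mul_pos hp.pos hN1)
  have c3 := cnt_Nr (δ i) 0 η hδ1 hηpos hηc N hN1
  have c4 := cnt_Nr (δ i) κ η hδ1 hηpos hηc N hN1
  have c2' : cnt {n | p * n ∈ Nr (δ i) (κ + η1) η1} N ≤ cnt (Nr (δ i) (κ + η1) η1) (p * N) := by
    apply cnt_inj (fun n => p * n)
    · intro n hn hn0 hnN
      exact ⟨hn, Nat.mul_pos hp.pos hn0, Nat.mul_le_mul_left p hnN⟩
    · intro x y hxy
      exact Nat.eq_of_mul_eq_mul_left hp.pos hxy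
  -- the inclusion
  set D1 := Nr (δ i) (κ + η1) η1 with hD1
  set D2 := {n | p * n ∈ Nr (δ i) (κ + η1) η1} with hD2
  set D3 := Nr (δ i) 0 η with hD3
  set D4 := Nr (δ i) κ η with hD4
  set D5 := {n | a < n ∧ n ∈ Nr (τ i) 0 η0} with hD5
  set D6 := {n | a < n ∧ n ∈ Nr (τ (i + 1)) 0 η0} with hD6
  have hincl : cnt ({n | glued τ δ (p * n) ≠ - glued τ δ n} ∩ {n | a + 1 ≤ n}) N
      ≤ cnt (((D1 ∪ D2) ∪ (D3 ∪ D4)) ∪ (D5 ∪ D6)) N := by
    apply cnt_mono'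
    rintro n hn0 hnN ⟨hn1, hn2⟩
    have hn2' : a + 1 ≤ n := hn2
    by_contra hcon
    simp only [Set.mem_union, not_or] at hcon
    obtain ⟨⟨⟨b1, b2⟩, b3, b4⟩, b5, b6⟩ := hcon
    apply hn1
    have han : (a : ℝ) ≤ n := by exact_mod_cast (by omega : a ≤ n)
    have hnR : (n : ℝ) ≤ N := by exact_mod_cast hnN
    have hnpn : (n : ℝ) ≤ p * n := le_mul_of_one_le_left (Nat.cast_nonneg n) hp1
    have e1 := hM n (by linarith) (hnN.trans (Nat.le_mul_of_pos_left N hp.pos))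
    have e2 := hM (p * n) (by rw [Nat.cast_mul]; linarith) (Nat.mul_le_mul_left p hnN)
    have key : ∀ n' : ℕ, n' ∉ Nr (δ i) (κ + η1) η1 → ∀ κ' : ℝ, κ' = κ ∨ κ' = κ + 1 / (2 * (i : ℝ) + 1) →
        mixf (τ i) (τ (i + 1)) (δ i) κ' n' = mixf (τ i) (τ (i + 1)) (δ i) κ n' := by
      intro n' hn' κ' hκ'
      rcases hκ' with rfl | rfl
      · rfl
      · symm
        apply mixf_close (by rw [h2η1]; linarith)
        have e3 : (κ + (κ + 1 / (2 * (i : ℝ) + 1))) / 2 = κ + η1 := by rw [h2η1]; ring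
        have e4 : (κ + 1 / (2 * (i : ℝ) + 1) - κ) / 2 = η1 := by rw [h2η1]; ring
        rw [e3, e4]; exact hn'
    rw [key n b1 _ (by split_ifs <;> simp)] at e1
    rw [key (p * n) b2 _ (by split_ifs <;> simp)] at e2
    show glued τ δ (p * n) = - glued τ δ n
    rw [e1, e2]
    have b5' : n ∉ Nr (τ i) 0 η := fun h => b5 ⟨by omega, Nr_mono hηa h⟩
    have b6' : n ∉ Nr (τ (i + 1)) 0 η := fun h => b6 ⟨by omega, Nr_mono hηa h⟩
    have := mixf_gen (σ := -1) (κ := κ) (n := n) (n' := p * n) (y := Real.log p)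
      (by
        push_cast
        rw [Real.log_mul hp0.ne' (by
          have : (0 : ℝ) < n := by exact_mod_cast hn0
          exact this.ne')]
        ring)
      hm hm1 hm2 hm1s hm2s b3 b4 b5' b6'
    rw [this]; ring
  have u1 := cnt_tail {n | glued τ δ (p * n) ≠ - glued τ δ n} N (a + 1)
  have u2 := cnt_union ((D1 ∪ D2) ∪ (D3 ∪ D4)) (D5 ∪ D6) N
  have u3 := cnt_union (D1 ∪ D2) (D3 ∪ D4) N
  have u4 := cnt_union D1 D2 N
  have u5 := cnt_union D3 D4 N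
  have u6 := cnt_union D5 D6 N
  have v1 : 63 * η1 * N ≤ ε1 * N := by
    have h1 : 63 * η1 ≤ 63 * η1 * p := le_mul_of_one_le_right (by positivity) hp1
    exact mul_le_mul_of_nonneg_right (h1.trans hi63) hNpos.le
  have v2 : 63 * η1 * ((p * N : ℕ) : ℝ) ≤ ε1 * N := by
    push_cast
    have := mul_le_mul_of_nonneg_right hi63 hNpos.le
    linarith
  have v3 : 63 * η * N ≤ ε1 * N := by
    apply mul_le_mul_of_nonneg_right _ hNpos.le
    linarith
  have v4 : ε1 * N ≤ ε / 40 * N := mul_le_mul_of_nonneg_right hε1a hNpos.le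
  push_cast at u1
  linarith

end Pool.Agent.Helper8.Order
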