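import Mathlib
import Pool.Agent.Helper8.Order.Almost
import Pool.Agent.Helper63.Order.Approximants

/-!
# Evaluation of the correlations of the glued function
-/

namespace Pool.Agent.Helper8.Order

open Polynomial Finset Filter Topology Pool.Agent.Helper8.Dilation

/-! ## Expansion into phases -/

/-- index set of the frequencies -/
def T (M : ℕ) : Finset (ℕ × ℤ) := range (M + 1) ×ˢ {1, -1}

/-- the frequency -/
def frq (t : ℕ × ℤ) : ℤ := t.2 * (2 * t.1 + 1)

/-- the coefficient -/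
noncomputable def coef (a : ℕ → ℕ → ℝ) (M : ℕ) (t : ℕ × ℤ) : ℂ :=
  (a M t.1 : ℂ) * (t.2 : ℂ) / (2 * Complex.I)

lemma ap_expand (a : ℕ → ℕ → ℝ) (M : ℕ) (x : ℝ) :
    ((ap a M x : ℝ) : ℂ)
      = ∑ t ∈ T M, coef a M t * Complex.exp ((Real.pi * (frq t : ℝ) * x : ℝ) * Complex.I) := by
  unfold T ap
  rw [Finset.sum_product]
  push_cast
  refine Finset.sum_congr rfl fun j _ => ?_
  rw [Finset.sum_pair (by norm_num)]
  unfold coef frq
  simp only
  rw [Complex.sin]
  have e1 : ((Real.pi : ℂ) * (((1 * (2 * (j : ℤ) + 1) : ℤ) : ℝ) : ℂ) * (x : ℂ)) * Complex.I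
      = ((2 * (j : ℂ) + 1) * ((Real.pi : ℂ) * x)) * Complex.I := by push_cast; ring
  have e2 : ((Real.pi : ℂ) * (((-1 * (2 * (j : ℤ) + 1) : ℤ) : ℝ) : ℂ) * (x : ℂ)) * Complex.I
      = -((2 * (j : ℂ) + 1) * ((Real.pi : ℂ) * x)) * Complex.I := by push_cast; ring
  push_cast at e1 e2 ⊢
  rw [e1, e2]
  have hI : Complex.I ≠ 0 := Complex.I_ne_zero
  field_simp
  ring_nf
  rw [Complex.I_sq]
  ring

/-- the shift pattern of a tuple of frequencies -/
noncomputable def pol {k : ℕ} (h : Fin k → ℕ) (t : Fin k → ℕ × ℤ) : ℤ[X] :=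
  ∑ j, C (frq (t j)) * X ^ (h j)

lemma L_pol {k : ℕ} (h : Fin k → ℕ) (t : Fin k → ℕ × ℤ) (x : ℝ) :
    L (pol h t) x = ∑ j, (frq (t j) : ℝ) * Real.log (x + h j) := by
  unfold pol
  rw [L_sum]
  refine Finset.sum_congr rfl fun j _ => ?_
  rw [L_monomial]

lemma prod_expand {k : ℕ} (a : ℕ → ℕ → ℝ) (M : ℕ) (h : Fin k → ℕ) (τ : ℝ) (n : ℕ) :
    ((∏ j, ap a M (τ * Real.log ((n + h j : ℕ) : ℝ)) : ℝ) : ℂ)
      = ∑ t ∈ Fintype.piFinset (fun _ : Fin k => T M),
        (∏ j, coef a M (t j)) * E τ (pol h t) n := by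
  push_cast
  simp_rw [ap_expand]
  rw [Finset.prod_univ_sum]
  refine Finset.sum_congr rfl fun t _ => ?_
  rw [Finset.prod_mul_distrib, ← Complex.exp_sum]
  congr 1
  unfold E
  rw [← Finset.sum_mul, L_pol]
  congr 2
  push_cast
  rw [Finset.mul_sum]
  refine Finset.sum_congr rfl fun j _ => ?_
  ring

open scoped Classical in
/-- the limit of the correlation of the approximants -/
noncomputable def LM {k : ℕ} (a : ℕ → ℕ → ℝ) (M : ℕ) (h : Fin k → ℕ) (d : ℕ) : ℂ :=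
  ∑ t ∈ (Fintype.piFinset (fun _ : Fin k => T M)).filter (fun t => (X - 1) ^ (d + 1) ∣ pol h t),
    ∏ j, coef a M (t j)

/-! ## Summation by parts -/

lemma abel (w : ℕ → ℝ) (hw : ∀ n, 0 ≤ w n ∧ w n ≤ 1) (u : ℕ → ℂ) (a b : ℕ) (hab : a ≤ b) (R : ℝ)
    (hR : ∀ b', a ≤ b' → b' ≤ b → ‖∑ n ∈ Ioc a b', u n‖ ≤ R) :
    ‖∑ n ∈ Ioc a b, (w n : ℂ) * u n‖ ≤ (1 + ∑ n ∈ Ico a b, |w (n + 1) - w n|) * R := by
  set S : ℕ → ℂ := fun n => ∑ m ∈ Ioc a n, u m with hS
  have key : ∀ c, a ≤ c → ∑ n ∈ Ioc a c, (w n : ℂ) * u n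
      = (w c : ℂ) * S c - ∑ n ∈ Ico a c, ((w (n + 1) : ℂ) - w n) * S n := by
    intro c hc
    induction c, hc using Nat.le_induction with
    | base => simp [hS]
    | succ c hc ih =>
      have h1 : S (c + 1) = S c + u (c + 1) := by
        simp only [hS]
        rw [Finset.sum_Ioc_succ_top (by omega)]
      rw [Finset.sum_Ioc_succ_top (by omega), ih, Finset.sum_Ico_succ_top hc, h1]
      ring
  rw [key b hab]
  have hR0 : 0 ≤ R := (norm_nonneg _).trans (hR a le_rfl hab)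
  refine (norm_sub_le _ _).trans ?_
  rw [add_mul, one_mul]
  apply add_le_add
  · rw [norm_mul, Complex.norm_real, Real.norm_eq_abs, abs_of_nonneg (hw b).1]
    calc w b * ‖S b‖ ≤ 1 * R := mul_le_mul (hw b).2 (hR b hab le_rfl) (norm_nonneg _) (by norm_num)
      _ = R := one_mul R
  · refine (norm_sum_le _ _).trans ?_
    rw [Finset.sum_mul]
    refine Finset.sum_le_sum fun n hn => ?_
    rw [Finset.mem_Ico] at hn
    rw [norm_mul]
    have h1 : ‖((w (n + 1) : ℂ) - w n)‖ = |w (n + 1) - w n| := by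
      rw [← Complex.ofReal_sub, Complex.norm_real, Real.norm_eq_abs]
    rw [h1]
    exact mul_le_mul_of_nonneg_left (hR n hn.1 hn.2.le) (abs_nonneg _)

/-- Main evaluation on a weighted interval. -/
lemma piece {d : ℕ} {τ δ : ℕ → ℝ} (hF : Freq d τ δ) {k : ℕ} (h : Fin k → ℕ) (a : ℕ → ℕ → ℝ) (M : ℕ)
    (C1 : ℝ) (hC1 : 0 ≤ C1) (ε2 : ℝ) (hε2 : 0 < ε2) (ε' : ℝ) (hε' : 0 < ε') :
    ∀ᶠ i : ℕ in atTop, ∀ N : ℕ, 4 ^ (i ^ 4) ≤ N → N ≤ 4 ^ ((i + 1) ^ 4 + i) → ∀ t : ℝ,
      (2 : ℝ) ^ ((2 * d + 1) * i ^ 4) ≤ t → t ≤ 2 * (2 : ℝ) ^ ((2 * d + 1) * (i + 1) ^ 4) →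
      ∀ a0 : ℕ, ε' * N ≤ a0 → a0 ≤ N → ∀ w : ℕ → ℝ, (∀ n, 0 ≤ w n ∧ w n ≤ 1) →
      ∑ n ∈ Ico a0 N, |w (n + 1) - w n| ≤ C1 * (δ i + 1) →
      ‖∑ n ∈ Ioc a0 N, (w n : ℂ) * ((∏ j, ap a M (t * Real.log ((n + h j : ℕ) : ℝ)) : ℝ) : ℂ)
        - LM a M h d * ∑ n ∈ Ioc a0 N, (w n : ℂ)‖ ≤ ε2 * N := by
  classical
  set Tk := Fintype.piFinset (fun _ : Fin k => T M) with hTk
  set Sc : ℝ := ∑ s ∈ Tk, ‖∏ j, coef a M (s j)‖ with hSc
  have hSc0 : 0 ≤ Sc := Finset.sum_nonneg fun _ _ => norm_nonneg _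
  set ε3 : ℝ := ε2 / (1 + Sc) with hε3
  have hε3pos : 0 < ε3 := by positivity
  have main : ∀ s ∈ Tk, ∀ᶠ i : ℕ in atTop, ∀ N : ℕ, 4 ^ (i ^ 4) ≤ N → N ≤ 4 ^ ((i + 1) ^ 4 + i) →
      ∀ t : ℝ, (2 : ℝ) ^ ((2 * d + 1) * i ^ 4) ≤ t →
      t ≤ 2 * (2 : ℝ) ^ ((2 * d + 1) * (i + 1) ^ 4) →
      ∀ a0 : ℕ, ε' * N ≤ a0 → a0 ≤ N → ∀ w : ℕ → ℝ, (∀ n, 0 ≤ w n ∧ w n ≤ 1) →
      ∑ n ∈ Ico a0 N, |w (n + 1) - w n| ≤ C1 * (δ i + 1) →
      ‖∑ n ∈ Ioc a0 N, (w n : ℂ) * E t (pol h s) n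
        - (if (X - 1) ^ (d + 1) ∣ pol h s then 1 else 0) * ∑ n ∈ Ioc a0 N, (w n : ℂ)‖ ≤ ε3 * N := by
    intro s _
    by_cases hs : (X - 1) ^ (d + 1) ∣ pol h s
    · obtain ⟨K, hK, hup⟩ := L_upper (d + 1) (by omega) _ hs
      filter_upwards [regime d (Real.pi * K / (ε' ^ (d + 1) * ε3))] with i hi
      intro N hN1 hN2 t ht1 ht2 a0 ha0 ha0N w hw _
      have hreg := (hi N hN1 hN2 t ht1 ht2).2
      have hN0 : (0 : ℝ) < N := by
        have : 0 < 4 ^ (i ^ 4) := by positivity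
        exact_mod_cast lt_of_lt_of_le this hN1
      have ht0 : 0 < t := lt_of_lt_of_le (by positivity) ht1
      rw [if_pos hs, one_mul, ← Finset.sum_sub_distrib]
      refine (norm_sum_le _ _).trans ?_
      have hpt : ∀ n ∈ Ioc a0 N, ‖(w n : ℂ) * E t (pol h s) n - (w n : ℂ)‖ ≤ ε3 := by
        intro n hn
        rw [Finset.mem_Ioc] at hn
        have hn0 : (0 : ℝ) < n := by exact_mod_cast (by omega : 0 < n)
        have han : ε' * N ≤ n := ha0.trans (by exact_mod_cast hn.1.le)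
        have e1 : (w n : ℂ) * E t (pol h s) n - (w n : ℂ) = (w n : ℂ) * (E t (pol h s) n - 1) := by ring
        rw [e1, norm_mul, Complex.norm_real, Real.norm_eq_abs, abs_of_nonneg (hw n).1]
        have e2 : ‖E t (pol h s) n - 1‖ ≤ |Real.pi * t * L (pol h s) n| := by
          have := cexp_sub_le (Real.pi * t * L (pol h s) n) 0
          simpa [E] using this
        have e3 : |Real.pi * t * L (pol h s) n| ≤ ε3 := by
          rw [abs_mul, abs_of_pos (mul_pos Real.pi_pos ht0)]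
          have h1 := hup n (by omega)
          have h2 : K / (n : ℝ) ^ (d + 1) ≤ K / (ε' * N) ^ (d + 1) := by
            apply div_le_div_of_nonneg_left hK.le (by positivity)
            exact pow_le_pow_left₀ (by positivity) han _
          have h3 : Real.pi * t * |L (pol h s) n| ≤ Real.pi * t * (K / (ε' * N) ^ (d + 1)) :=
            mul_le_mul_of_nonneg_left (h1.trans h2) (mul_pos Real.pi_pos ht0).le
          refine h3.trans ?_
          rw [div_mul_eq_mul_div, div_le_iff₀ (by positivity)] at hreg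
          rw [mul_pow, ← mul_div_assoc, div_le_iff₀ (by positivity)]
          linarith
        calc w n * ‖E t (pol h s) n - 1‖ ≤ 1 * ε3 :=
              mul_le_mul (hw n).2 (e2.trans e3) (norm_nonneg _) (by norm_num)
          _ = ε3 := one_mul _
      refine (Finset.sum_le_sum hpt).trans ?_
      rw [Finset.sum_const, Nat.card_Ioc, nsmul_eq_mul, mul_comm]
      apply mul_le_mul_of_nonneg_left _ hε3pos.le
      exact_mod_cast Nat.sub_le N a0
    · filter_upwards [hF.bound _ hs (min ε' (ε3 / (1 + C1))) (by positivity), hF.slow] with i hi hδi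
      intro N hN1 hN2 t ht1 ht2 a0 ha0 ha0N w hw hvar
      have hN0 : (0 : ℝ) < N := by
        have : 0 < 4 ^ (i ^ 4) := by positivity
        exact_mod_cast lt_of_lt_of_le this hN1
      set εF := min ε' (ε3 / (1 + C1)) with hεF
      have hεF0 : 0 < εF := by positivity
      rw [if_neg hs, zero_mul, sub_zero]
      have hδ1 : 0 < δ i + 1 := by linarith [hδi.1]
      have hab := abel w hw (fun n => E t (pol h s) n) a0 N ha0N (εF * N / (δ i + 1)) (by
        intro b' hb1 hb2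
        rw [le_div_iff₀ hδ1]
        exact hi N hN1 hN2 t ht1 ht2 a0 b'
          ((mul_le_mul_of_nonneg_right (min_le_left _ _) hN0.le).trans ha0) hb1 hb2)
      refine hab.trans ?_
      have h1 : 1 + ∑ n ∈ Ico a0 N, |w (n + 1) - w n| ≤ (1 + C1) * (δ i + 1) := by
        nlinarith [hδi.1]
      calc (1 + ∑ n ∈ Ico a0 N, |w (n + 1) - w n|) * (εF * N / (δ i + 1))
          ≤ (1 + C1) * (δ i + 1) * (εF * N / (δ i + 1)) :=
            mul_le_mul_of_nonneg_right h1 (by positivity)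
        _ = (1 + C1) * εF * N := by field_simp
        _ ≤ ε3 * N := by
            apply mul_le_mul_of_nonneg_right _ hN0.le
            have : εF ≤ ε3 / (1 + C1) := min_le_right _ _
            rw [le_div_iff₀ (by positivity)] at this
            linarith
  filter_upwards [(Finset.eventually_all _).mpr main] with i hi
  intro N hN1 hN2 t ht1 ht2 a0 ha0 ha0N w hw hvar
  have e1 : ∑ n ∈ Ioc a0 N, (w n : ℂ) * ((∏ j, ap a M (t * Real.log ((n + h j : ℕ) : ℝ)) : ℝ) : ℂ)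
        - LM a M h d * ∑ n ∈ Ioc a0 N, (w n : ℂ)
      = ∑ s ∈ Tk, (∏ j, coef a M (s j)) * (∑ n ∈ Ioc a0 N, (w n : ℂ) * E t (pol h s) n
        - (if (X - 1) ^ (d + 1) ∣ pol h s then 1 else 0) * ∑ n ∈ Ioc a0 N, (w n : ℂ)) := by
    simp_rw [prod_expand]
    unfold LM
    rw [Finset.sum_filter]
    simp_rw [mul_sub, Finset.sum_sub_distrib]
    congr 1
    · simp_rw [Finset.mul_sum]
      rw [Finset.sum_comm]
      refine Finset.sum_congr rfl fun s _ => Finset.sum_congr rfl fun n _ => ?_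
      ring
    · rw [Finset.sum_mul]
      refine Finset.sum_congr rfl fun s _ => ?_
      split_ifs <;> ring
  rw [e1]
  refine (norm_sum_le _ _).trans ?_
  have hN0 : (0 : ℝ) ≤ N := by positivity
  calc ∑ s ∈ Tk, ‖(∏ j, coef a M (s j)) * (∑ n ∈ Ioc a0 N, (w n : ℂ) * E t (pol h s) n
        - (if (X - 1) ^ (d + 1) ∣ pol h s then 1 else 0) * ∑ n ∈ Ioc a0 N, (w n : ℂ))‖
      ≤ ∑ s ∈ Tk, ‖∏ j, coef a M (s j)‖ * (ε3 * N) := by
        refine Finset.sum_le_sum fun s hs => ?_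
        rw [norm_mul]
        exact mul_le_mul_of_nonneg_left (hi s hs N hN1 hN2 t ht1 ht2 a0 ha0 ha0N w hw hvar)
          (norm_nonneg _)
    _ = Sc * (ε3 * N) := by rw [← Finset.sum_mul]
    _ ≤ (1 + Sc) * ε3 * N := by nlinarith [mul_nonneg hε3pos.le hN0]
    _ = ε2 * N := by rw [hε3]; field_simp

/-! ## The weights -/

/-- weight of the first piece -/
noncomputable def wt (δ κ κ' : ℝ) (M n : ℕ) : ℝ :=
  if ⌊δ * Real.log n⌋ = ⌊δ * Real.log n - (if n < M then κ else κ')⌋ then 1 else 0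

lemma wt_01 (δ κ κ' : ℝ) (M n : ℕ) : wt δ κ κ' M n = 0 ∨ wt δ κ κ' M n = 1 := by
  unfold wt; split_ifs <;> simp

lemma mixf_wt (α β δ κ κ' : ℝ) (M n : ℕ) : mixf α β δ (if n < M then κ else κ') n
    = wt δ κ κ' M n * sgn α n + (1 - wt δ κ κ' M n) * sgn β n := by
  unfold mixf wt
  split_ifs <;> ring

lemma tele (A : ℕ → ℤ) (a b : ℕ) (hab : a ≤ b) :
    ∑ n ∈ Ico a b, ((A (n + 1) : ℝ) - A n) = (A b : ℝ) - A a := by
  induction b, hab using Nat.le_induction with
  | base => simp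
  | succ b hb ih => rw [Finset.sum_Ico_succ_top hb, ih]; ring

lemma wt_var (δ κ κ' : ℝ) (hδ : 0 ≤ δ) (M a b : ℕ) (ha : 1 ≤ a) (hab : a ≤ b) :
    ∑ n ∈ Ico a b, |wt δ κ κ' M (n + 1) - wt δ κ κ' M n|
      ≤ 3 * (δ * (Real.log b - Real.log a) + 1) + 1 := by
  classical
  set A : ℝ → ℕ → ℤ := fun c n => ⌊δ * Real.log n - c⌋ with hA
  have hmono : ∀ c, ∀ n, 1 ≤ n → A c n ≤ A c (n + 1) := by
    intro c n hn
    apply Int.floor_le_floor
    have h1 : (0 : ℝ) < n := by exact_mod_cast hn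
    have h2 : Real.log n ≤ Real.log (n + 1 : ℕ) := Real.log_le_log h1 (by push_cast; linarith)
    have := mul_le_mul_of_nonneg_left h2 hδ
    linarith
  have hwt : ∀ n, wt δ κ κ' M n = if A 0 n = A (if n < M then κ else κ') n then 1 else 0 := by
    intro n; simp only [hA, wt, sub_zero]
  have hpt : ∀ n ∈ Ico a b, |wt δ κ κ' M (n + 1) - wt δ κ κ' M n|
      ≤ (((A 0 (n + 1) : ℝ) - A 0 n) + ((A κ (n + 1) : ℝ) - A κ n)) + (((A κ' (n + 1) : ℝ) - A κ' n)
        + if n + 1 = M then 1 else 0) := by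
    intro n hn
    rw [Finset.mem_Ico] at hn
    have m0 : (A 0 n : ℝ) ≤ A 0 (n + 1) := by exact_mod_cast hmono 0 n (by omega)
    have m1 : (A κ n : ℝ) ≤ A κ (n + 1) := by exact_mod_cast hmono κ n (by omega)
    have m2 : (A κ' n : ℝ) ≤ A κ' (n + 1) := by exact_mod_cast hmono κ' n (by omega)
    have hle1 : |wt δ κ κ' M (n + 1) - wt δ κ κ' M n| ≤ 1 := by
      rcases wt_01 δ κ κ' M (n + 1) with h1 | h1 <;> rcases wt_01 δ κ κ' M n with h2 | h2 <;>
        rw [h1, h2] <;> norm_num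
    have hind : (0 : ℝ) ≤ if n + 1 = M then 1 else 0 := by split_ifs <;> norm_num
    by_cases hM : n + 1 = M
    · rw [if_pos hM]; linarith
    rw [if_neg hM]
    have hbr : ((if n + 1 < M then κ else κ') = (if n < M then κ else κ')) := by
      by_cases h1 : n + 1 < M
      · rw [if_pos h1, if_pos (by omega)]
      · rw [if_neg h1, if_neg (by omega)]
    by_cases h0 : A 0 (n + 1) = A 0 n
    · by_cases hk : A κ (n + 1) = A κ n
      · by_cases hk' : A κ' (n + 1) = A κ' n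
        · have : wt δ κ κ' M (n + 1) = wt δ κ κ' M n := by
            rw [hwt, hwt, hbr, h0]
            split_ifs <;> simp_all
          rw [this, sub_self, abs_zero, h0, hk, hk']
          simp
        · have h1 : A κ' n + 1 ≤ A κ' (n + 1) := by
            have := hmono κ' n (by omega); omega
          have h2 : (A κ' n : ℝ) + 1 ≤ A κ' (n + 1) := by exact_mod_cast h1
          linarith
      · have h1 : A κ n + 1 ≤ A κ (n + 1) := by
          have := hmono κ n (by omega); omega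
        have h2 : (A κ n : ℝ) + 1 ≤ A κ (n + 1) := by exact_mod_cast h1
        linarith
    · have h1 : A 0 n + 1 ≤ A 0 (n + 1) := by
        have := hmono 0 n (by omega); omega
      have h2 : (A 0 n : ℝ) + 1 ≤ A 0 (n + 1) := by exact_mod_cast h1
      linarith
  refine (Finset.sum_le_sum hpt).trans ?_
  rw [Finset.sum_add_distrib, Finset.sum_add_distrib, Finset.sum_add_distrib, tele _ _ _ hab,
    tele _ _ _ hab, tele _ _ _ hab]
  have hinc : ∀ c, (A c b : ℝ) - A c a ≤ δ * (Real.log b - Real.log a) + 1 := by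
    intro c
    have h1 : (A c b : ℝ) ≤ δ * Real.log b - c := Int.floor_le _
    have h2 : δ * Real.log a - c < (A c a : ℝ) + 1 := Int.lt_floor_add_one _
    linarith
  have hone : ∑ n ∈ Ico a b, (if n + 1 = M then (1 : ℝ) else 0) ≤ 1 := by
    rw [← Finset.sum_filter, Finset.sum_const, nsmul_eq_mul, mul_one]
    have : ((Ico a b).filter (fun n => n + 1 = M)).card ≤ 1 := by
      rw [Finset.card_le_one]
      intro x hx y hy
      rw [Finset.mem_filter] at hx hy
      omega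
    exact_mod_cast this
  have i0 := hinc 0
  have i1 := hinc κ
  have i2 := hinc κ'
  linarith

/-! ## Replacing the signs -/

lemma prod_diff {ι : Type*} (s : Finset ι) (x y : ι → ℝ) (hx : ∀ i, |x i| ≤ 1) (hy : ∀ i, |y i| ≤ 1) :
    |∏ i ∈ s, x i - ∏ i ∈ s, y i| ≤ ∑ i ∈ s, |x i - y i| := by
  classical
  induction s using Finset.induction_on with
  | empty => simp
  | insert b s hb ih =>
    rw [Finset.prod_insert hb, Finset.prod_insert hb, Finset.sum_insert hb]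
    have e : x b * ∏ i ∈ s, x i - y b * ∏ i ∈ s, y i
        = (x b - y b) * ∏ i ∈ s, x i + y b * (∏ i ∈ s, x i - ∏ i ∈ s, y i) := by ring
    rw [e]
    refine (abs_add_le _ _).trans ?_
    rw [abs_mul, abs_mul]
    have h1 : |∏ i ∈ s, x i| ≤ 1 := by
      rw [Finset.abs_prod]
      exact Finset.prod_le_one (fun _ _ => abs_nonneg _) (fun i _ => hx i)
    have h2 : |x b - y b| * |∏ i ∈ s, x i| ≤ |x b - y b| * 1 :=
      mul_le_mul_of_nonneg_left h1 (abs_nonneg _)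
    have h3 : |y b| * |∏ i ∈ s, x i - ∏ i ∈ s, y i| ≤ 1 * |∏ i ∈ s, x i - ∏ i ∈ s, y i| :=
      mul_le_mul_of_nonneg_right (hy b) (abs_nonneg _)
    linarith

lemma sum_shift_le (g : ℕ → ℝ) (hg : ∀ n, 0 ≤ g n) (a N u H : ℕ) (hu : u ≤ H) :
    ∑ n ∈ Ioc a N, g (n + u) ≤ ∑ m ∈ Ioc a (N + H), g m := by
  classical
  have h1 : ∑ n ∈ Ioc a N, g (n + u) = ∑ m ∈ (Ioc a N).image (fun n => n + u), g m := by
    rw [Finset.sum_image]
    intro x _ y _ hxy
    simpa using hxy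
  rw [h1]
  apply Finset.sum_le_sum_of_subset_of_nonneg
  · intro m hm
    rw [Finset.mem_image] at hm
    obtain ⟨n, hn, rfl⟩ := hm
    rw [Finset.mem_Ioc] at hn ⊢
    omega
  · intro m _ _; exact hg m

lemma sum_shift_le' (g : ℕ → ℝ) (hg : ∀ n, 0 ≤ g n) (a N u H : ℕ) (hu : u < H) :
    ∑ n ∈ Ioc a N, g (n + u) ≤ ∑ m ∈ Ico a (N + H), g m := by
  classical
  have h1 : ∑ n ∈ Ioc a N, g (n + u) = ∑ m ∈ (Ioc a N).image (fun n => n + u), g m := by
    rw [Finset.sum_image]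
    intro x _ y _ hxy
    simpa using hxy
  rw [h1]
  apply Finset.sum_le_sum_of_subset_of_nonneg
  · intro m hm
    rw [Finset.mem_image] at hm
    obtain ⟨n, hn, rfl⟩ := hm
    rw [Finset.mem_Ioc] at hn
    rw [Finset.mem_Ico]
    omega
  · intro m _ _; exact hg m

lemma diff_shift (w : ℕ → ℝ) (a N h H : ℕ) (hh : h ≤ H) :
    ∑ n ∈ Ioc a N, |w (n + h) - w n| ≤ h * ∑ m ∈ Ico a (N + H), |w (m + 1) - w m| := by
  induction h with
  | zero => simp
  | succ h ih =>
    have ih' := ih (by omega)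
    have h1 : ∑ n ∈ Ioc a N, |w (n + (h + 1)) - w n|
        ≤ ∑ n ∈ Ioc a N, |w (n + h + 1) - w (n + h)| + ∑ n ∈ Ioc a N, |w (n + h) - w n| := by
      rw [← Finset.sum_add_distrib]
      refine Finset.sum_le_sum fun n _ => ?_
      have : w (n + (h + 1)) - w n = (w (n + h + 1) - w (n + h)) + (w (n + h) - w n) := by
        rw [show n + (h + 1) = n + h + 1 by ring]; ring
      rw [this]
      exact abs_add_le _ _
    have h2 := sum_shift_le' (fun m => |w (m + 1) - w m|) (fun _ => abs_nonneg _) a N h H (by omega)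
    push_cast
    linarith

/-- A mixture evaluated along shifts. -/
lemma mix_prod {k : ℕ} (h : Fin k → ℕ) (f w gα gβ : ℕ → ℝ) (n : ℕ)
    (hw : ∀ m, w m = 0 ∨ w m = 1) (hα : ∀ m, |gα m| ≤ 1) (hβ : ∀ m, |gβ m| ≤ 1)
    (hf : ∀ j, f (n + h j) = w (n + h j) * gα (n + h j) + (1 - w (n + h j)) * gβ (n + h j)) :
    |∏ j, f (n + h j) - (w n * ∏ j, gα (n + h j) + (1 - w n) * ∏ j, gβ (n + h j))|
      ≤ 2 * ∑ j, |w (n + h j) - w n| := by
  classical
  have hP : ∀ g : ℕ → ℝ, (∀ m, |g m| ≤ 1) → |∏ j, g (n + h j)| ≤ 1 := by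
    intro g hg
    rw [Finset.abs_prod]
    exact Finset.prod_le_one (fun _ _ => abs_nonneg _) (fun i _ => hg _)
  by_cases hall : ∀ j, w (n + h j) = w n
  · have : ∏ j, f (n + h j) = w n * ∏ j, gα (n + h j) + (1 - w n) * ∏ j, gβ (n + h j) := by
      rcases hw n with h0 | h0
      · rw [h0, zero_mul, zero_add, sub_zero, one_mul]
        refine Finset.prod_congr rfl fun j _ => ?_
        rw [hf j, hall j, h0]; ring
      · rw [h0, one_mul, sub_self, zero_mul, add_zero]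
        refine Finset.prod_congr rfl fun j _ => ?_
        rw [hf j, hall j, h0]; ring
    rw [this, sub_self, abs_zero]
    positivity
  · push Not at hall
    obtain ⟨j0, hj0⟩ := hall
    have h1 : |w (n + h j0) - w n| = 1 := by
      rcases hw (n + h j0) with a1 | a1 <;> rcases hw n with a2 | a2
      · exact absurd (a1.trans a2.symm) hj0
      · rw [a1, a2]; norm_num
      · rw [a1, a2]; norm_num
      · exact absurd (a1.trans a2.symm) hj0
    have h2 : 1 ≤ ∑ j, |w (n + h j) - w n| := by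
      rw [← h1]
      exact Finset.single_le_sum (f := fun j => |w (n + h j) - w n|) (fun _ _ => abs_nonneg _)
        (Finset.mem_univ j0)
    have h3 : |∏ j, f (n + h j)| ≤ 1 := by
      rw [Finset.abs_prod]
      apply Finset.prod_le_one (fun _ _ => abs_nonneg _)
      intro j _
      rw [hf j]
      rcases hw (n + h j) with a1 | a1
      · rw [a1]; simpa using hβ (n + h j)
      · rw [a1]; simpa using hα (n + h j)
    have h4 : |w n * ∏ j, gα (n + h j) + (1 - w n) * ∏ j, gβ (n + h j)| ≤ 1 := by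
      rcases hw n with a1 | a1
      · rw [a1]; simpa using hP gβ hβ
      · rw [a1]; simpa using hP gα hα
    have h5 := abs_sub (∏ j, f (n + h j)) (w n * ∏ j, gα (n + h j) + (1 - w n) * ∏ j, gβ (n + h j))
    linarith

end Pool.Agent.Helper8.Order
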