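import Mathlib
import Pool.Agent.Helper8.Order.Corr

/-!
# Evaluation of the correlations of the glued function: conclusion
-/

namespace Pool.Agent.Helper8.Order

open Polynomial Finset Filter Topology Pool.Agent.Helper8.Dilation

lemma sgn_abs (t : ℝ) (n : ℕ) : |sgn t n| ≤ 1 := abs_of_pm (sgn_pm t n)

/-- The total error of the approximation of the sign by the trigonometric polynomial. -/
lemma approx_sum (a : ℕ → ℕ → ℝ) (M : ℕ) (ha1 : ∀ x, |ap a M x| ≤ 1) (η ε1 : ℝ) (hε1 : 0 ≤ ε1)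
    (ha2 : ∀ x : ℝ, (∀ k : ℤ, η < |x - k|) → |(-1 : ℝ) ^ ⌊x⌋ - ap a M x| ≤ ε1) (t : ℝ) (a0 N H : ℕ)
    (hcnt : cnt {n | a0 < n ∧ n ∈ Nr t 0 η} N ≤ ε1 * N) (ha0N : a0 ≤ N) :
    ∑ n ∈ Ioc a0 (N + H), |sgn t n - ap a M (t * Real.log n)| ≤ 3 * ε1 * N + 2 * H := by
  classical
  have h2 : ∀ n : ℕ, |sgn t n - ap a M (t * Real.log n)| ≤ 2 := by
    intro n
    have h1 := abs_sub (sgn t n) (ap a M (t * Real.log n))
    have h3 := sgn_abs t n
    have h4 := ha1 (t * Real.log n)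
    linarith
  have hsplit : ∑ n ∈ Ioc a0 (N + H), |sgn t n - ap a M (t * Real.log n)|
      = ∑ n ∈ Ioc a0 N, |sgn t n - ap a M (t * Real.log n)|
        + ∑ n ∈ Ioc N (N + H), |sgn t n - ap a M (t * Real.log n)| :=
    (Finset.sum_Ioc_consecutive _ ha0N (Nat.le_add_right N H)).symm
  rw [hsplit]
  have h5 : ∑ n ∈ Ioc N (N + H), |sgn t n - ap a M (t * Real.log n)| ≤ 2 * H := by
    refine (Finset.sum_le_sum fun n _ => h2 n).trans ?_
    rw [Finset.sum_const, Nat.card_Ioc, nsmul_eq_mul, Nat.add_sub_cancel_left]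
    linarith
  have h6 : ∀ n ∈ Ioc a0 N, |sgn t n - ap a M (t * Real.log n)|
      ≤ ε1 + if n ∈ Nr t 0 η then 2 else 0 := by
    intro n _
    split_ifs with hn
    · linarith [h2 n]
    · rw [add_zero]
      have := ha2 (t * Real.log n) (fun k => by
        have := not_Nr hn k
        rwa [sub_zero] at this)
      exact this
  have h7 : ∑ n ∈ Ioc a0 N, |sgn t n - ap a M (t * Real.log n)| ≤ ε1 * N + 2 * (ε1 * N) := by
    refine (Finset.sum_le_sum h6).trans ?_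
    rw [Finset.sum_add_distrib]
    apply add_le_add
    · rw [Finset.sum_const, Nat.card_Ioc, nsmul_eq_mul, mul_comm]
      apply mul_le_mul_of_nonneg_left _ hε1
      exact_mod_cast Nat.sub_le N a0
    · rw [← Finset.sum_filter, Finset.sum_const, nsmul_eq_mul, mul_comm]
      apply mul_le_mul_of_nonneg_left _ (by norm_num)
      refine le_trans ?_ hcnt
      unfold cnt
      have h8 : (((Ioc a0 N).filter (fun n => n ∈ Nr t 0 η) : Finset ℕ) : Set ℕ)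
          ⊆ {n | a0 < n ∧ n ∈ Nr t 0 η} ∩ Set.Ioc 0 N := by
        intro n hn
        rw [Finset.mem_coe, Finset.mem_filter, Finset.mem_Ioc] at hn
        exact ⟨⟨hn.1.1, hn.2⟩, ⟨by omega, hn.1.2⟩⟩
      have h9 := Set.ncard_le_ncard h8 (fin_Ioc _ N)
      rw [Set.ncard_coe_finset] at h9
      exact_mod_cast h9
  linarith

/-- Replacing signs by trigonometric polynomials in products. -/
lemma prod_approx {k : ℕ} (h : Fin k → ℕ) (a : ℕ → ℕ → ℝ) (M : ℕ) (ha1 : ∀ x, |ap a M x| ≤ 1)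
    (t : ℝ) (a0 N H : ℕ) (hH : ∀ j, h j ≤ H) (R : ℝ)
    (hR : ∑ n ∈ Ioc a0 (N + H), |sgn t n - ap a M (t * Real.log n)| ≤ R) (w : ℕ → ℝ)
    (hw : ∀ n, 0 ≤ w n ∧ w n ≤ 1) :
    |∑ n ∈ Ioc a0 N, w n * ∏ j, sgn t (n + h j)
      - ∑ n ∈ Ioc a0 N, w n * ∏ j, ap a M (t * Real.log ((n + h j : ℕ) : ℝ))| ≤ k * R := by
  rw [← Finset.sum_sub_distrib]
  refine (Finset.abs_sum_le_sum_abs _ _).trans ?_
  have h1 : ∀ n ∈ Ioc a0 N, |w n * ∏ j, sgn t (n + h j)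
      - w n * ∏ j, ap a M (t * Real.log ((n + h j : ℕ) : ℝ))|
      ≤ ∑ j, |sgn t (n + h j) - ap a M (t * Real.log ((n + h j : ℕ) : ℝ))| := by
    intro n _
    rw [← mul_sub, abs_mul, abs_of_nonneg (hw n).1]
    have h2 := prod_diff Finset.univ (fun j => sgn t (n + h j))
      (fun j => ap a M (t * Real.log ((n + h j : ℕ) : ℝ))) (fun j => sgn_abs t _) (fun j => ha1 _)
    calc w n * |∏ j, sgn t (n + h j) - ∏ j, ap a M (t * Real.log ((n + h j : ℕ) : ℝ))|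
        ≤ 1 * |∏ j, sgn t (n + h j) - ∏ j, ap a M (t * Real.log ((n + h j : ℕ) : ℝ))| :=
          mul_le_mul_of_nonneg_right (hw n).2 (abs_nonneg _)
      _ = |∏ j, sgn t (n + h j) - ∏ j, ap a M (t * Real.log ((n + h j : ℕ) : ℝ))| := one_mul _
      _ ≤ _ := h2
  refine (Finset.sum_le_sum h1).trans ?_
  rw [Finset.sum_comm]
  have h3 : ∀ j ∈ (Finset.univ : Finset (Fin k)),
      ∑ n ∈ Ioc a0 N, |sgn t (n + h j) - ap a M (t * Real.log ((n + h j : ℕ) : ℝ))| ≤ R := by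
    intro j _
    exact (sum_shift_le (fun n => |sgn t n - ap a M (t * Real.log n)|) (fun _ => abs_nonneg _)
      a0 N (h j) H (hH j)).trans hR
  refine (Finset.sum_le_sum h3).trans ?_
  rw [Finset.sum_const, Finset.card_univ, Fintype.card_fin, nsmul_eq_mul]

/-- All correlations of the glued function. -/
theorem corr {d : ℕ} {τ δ : ℕ → ℝ} (hF : Freq d τ δ) {k : ℕ} (h : Fin k → ℕ) (a : ℕ → ℕ → ℝ)
    (ha1 : ∀ M x, |ap a M x| ≤ 1)
    (ha2 : ∀ η : ℝ, 0 < η → ∀ ε : ℝ, 0 < ε → ∃ M0 : ℕ, ∀ M, M0 ≤ M → ∀ x : ℝ,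
      (∀ k : ℤ, η < |x - k|) → |(-1 : ℝ) ^ ⌊x⌋ - ap a M x| ≤ ε) (ε : ℝ) (hε : 0 < ε) :
    ∃ M0 : ℕ, ∀ M, M0 ≤ M → ∀ᶠ N : ℕ in atTop,
      ‖((avg (glued τ δ) h N : ℝ) : ℂ) - LM a M h d‖ ≤ ε := by
  classical
  have hk0 : (0 : ℝ) ≤ k := by positivity
  set ε1 : ℝ := ε / (24 * (k + 1)) with hε1
  have hε1pos : 0 < ε1 := by positivity
  obtain ⟨η0, hη0, hnear⟩ := cnt_near hF ε1 hε1pos
  obtain ⟨M0, hM0⟩ := ha2 η0 hη0 ε1 hε1pos
  refine ⟨M0, fun M hM => ?_⟩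
  set Λ : ℝ := ‖LM a M h d‖ with hΛ
  have hΛ0 : 0 ≤ Λ := norm_nonneg _
  set ε' : ℝ := min (1 / 2) (ε / (24 * (1 + Λ))) with hε'
  have hε'pos : 0 < ε' := by positivity
  have hε'a : ε' ≤ 1 / 2 := min_le_left _ _
  have hε'b : ε' ≤ ε / (24 * (1 + Λ)) := min_le_right _ _
  set lg : ℝ := Real.log (2 / ε') with hlg
  have hlg0 : 0 ≤ lg := by
    apply Real.log_nonneg
    rw [le_div_iff₀ hε'pos]; linarith
  set C1 : ℝ := 3 * (lg + 1) + 1 with hC1
  have hC10 : 0 ≤ C1 := by positivity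
  set H : ℕ := ∑ j, h j with hH
  have hHj : ∀ j, h j ≤ H := fun j =>
    Finset.single_le_sum (f := h) (fun _ _ => Nat.zero_le _) (Finset.mem_univ j)
  have hpc := piece hF h a M C1 hC10 (ε / 48) (by positivity) ε' hε'pos
  obtain ⟨i0, hi0⟩ := Filter.eventually_atTop.mp
    ((hF.size.and ((tendsto_add_atTop_nat 1).eventually hF.size)).and
    ((hF.slow.and (hnear ε' hε'pos)).and hpc))
  have hbig : ∀ᶠ N : ℕ in atTop, (1 + Λ) + 4 * k * H + H + 1 ≤ min (ε / 24) 1 * N := by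
    have := (tendsto_natCast_atTop_atTop (R := ℝ)).const_mul_atTop
      (show (0 : ℝ) < min (ε / 24) 1 by positivity)
    exact this.eventually_ge_atTop _
  filter_upwards [window τ δ ε' hε'pos (by linarith) 2 i0, hbig,
    log_small (2 * H * C1) (2 * H * C1) (ε / 24) (by positivity)] with N hwin hN hlogN
  obtain ⟨i, hi, hNa, hNb, κ, hκ0, hκ1, M', hM'⟩ := hwin
  obtain ⟨⟨⟨hs1, hs2⟩, hs3, hs4⟩, ⟨⟨hδ1, hδ2⟩, hnr⟩, hp⟩ := hi0 i hi
  have hkH : (0 : ℝ) ≤ 4 * k * H := by positivity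
  have hH0 : (0 : ℝ) ≤ H := by positivity
  have hNpos : (0 : ℝ) < N := by
    by_contra hcon
    push Not at hcon
    have : min (ε / 24) 1 * (N : ℝ) ≤ 0 := mul_nonpos_of_nonneg_of_nonpos (by positivity) hcon
    linarith
  have hN1 : 1 ≤ N := by exact_mod_cast hNpos
  have hNx : min (ε / 24) 1 * (N : ℝ) ≤ ε / 24 * N := mul_le_mul_of_nonneg_right (min_le_left _ _) hNpos.le
  have hNy : min (ε / 24) 1 * (N : ℝ) ≤ 1 * N := mul_le_mul_of_nonneg_right (min_le_right _ _) hNpos.le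
  have hHN : H ≤ N := by
    have : (H : ℝ) ≤ N := by linarith
    exact_mod_cast this
  set a0 := ⌈ε' * (N : ℝ)⌉₊ with ha0
  have ha0a : ε' * N ≤ a0 := Nat.le_ceil _
  have ha0b : (a0 : ℝ) < ε' * N + 1 := Nat.ceil_lt_add_one (by positivity)
  have ha0N : a0 ≤ N := by
    apply Nat.ceil_le.mpr
    nlinarith
  have ha01 : 1 ≤ a0 := by
    have : (0 : ℝ) < a0 := lt_of_lt_of_le (by positivity) ha0a
    exact_mod_cast this
  have hpowmono : (2 : ℝ) ^ ((2 * d + 1) * i ^ 4) ≤ 2 ^ ((2 * d + 1) * (i + 1) ^ 4) := by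
    apply pow_le_pow_right₀ (by norm_num)
    apply Nat.mul_le_mul_left
    exact Nat.pow_le_pow_left (by omega) 4
  set κ' : ℝ := κ + 1 / (2 * (i : ℝ) + 1) with hκ'
  set w : ℕ → ℝ := wt (δ i) κ κ' M' with hw
  have hw01 : ∀ m, w m = 0 ∨ w m = 1 := fun m => wt_01 _ _ _ _ _
  have hwb : ∀ n, 0 ≤ w n ∧ w n ≤ 1 := by
    intro n; rcases hw01 n with h | h <;> rw [h] <;> norm_num
  set w' : ℕ → ℝ := fun n => 1 - w n with hw'
  have hwb' : ∀ n, 0 ≤ w' n ∧ w' n ≤ 1 := by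
    intro n; have := hwb n; simp only [hw']; constructor <;> linarith [this.1, this.2]
  -- the variation
  set V : ℝ := ∑ m ∈ Ico a0 (N + H), |w (m + 1) - w m| with hV
  have hVle : V ≤ C1 * (δ i + 1) := by
    have h1 := wt_var (δ i) κ κ' (by linarith) M' a0 (N + H) ha01 (by omega)
    have h2 : Real.log ((N + H : ℕ) : ℝ) - Real.log a0 ≤ lg := by
      rw [← Real.log_div (by positivity) (by positivity)]
      apply Real.log_le_log (by positivity)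
      rw [div_le_div_iff₀ (by positivity) hε'pos]
      have h3 : ((N + H : ℕ) : ℝ) ≤ 2 * N := by
        push_cast
        have : (H : ℝ) ≤ N := by exact_mod_cast hHN
        linarith
      nlinarith
    have h4 : δ i * (Real.log ((N + H : ℕ) : ℝ) - Real.log a0) ≤ δ i * lg :=
      mul_le_mul_of_nonneg_left h2 (by linarith)
    rw [hV]
    refine h1.trans ?_
    rw [hC1]
    nlinarith
  have hVsmall : ∑ n ∈ Ico a0 N, |w (n + 1) - w n| ≤ C1 * (δ i + 1) := by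
    refine le_trans ?_ hVle
    apply Finset.sum_le_sum_of_subset_of_nonneg
    · intro x hx
      rw [Finset.mem_Ico] at hx ⊢
      omega
    · intro _ _ _; exact abs_nonneg _
  have hVsmall' : ∑ n ∈ Ico a0 N, |w' (n + 1) - w' n| ≤ C1 * (δ i + 1) := by
    refine le_trans (le_of_eq ?_) hVsmall
    refine Finset.sum_congr rfl fun n _ => ?_
    simp only [hw']
    rw [abs_sub_comm]
    congr 1; ring
  -- the local formula
  have hloc : ∀ m : ℕ, ε' * N ≤ m → m ≤ 2 * N →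
      glued τ δ m = w m * sgn (τ i) m + (1 - w m) * sgn (τ (i + 1)) m := by
    intro m hm1 hm2
    rw [hM' m hm1 hm2, hw, ← mixf_wt]
  set α := τ i with hα
  set β := τ (i + 1) with hβ
  -- step A
  set SA : ℝ := ∑ n ∈ Ioc a0 N, (w n * ∏ j, sgn α (n + h j) + (1 - w n) * ∏ j, sgn β (n + h j)) with hSA
  have stepA : |∑ n ∈ Ioc a0 N, ∏ j, glued τ δ (n + h j) - SA| ≤ 2 * (H * V) := by
    rw [hSA, ← Finset.sum_sub_distrib]
    refine (Finset.abs_sum_le_sum_abs _ _).trans ?_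
    have h1 : ∀ n ∈ Ioc a0 N, |∏ j, glued τ δ (n + h j)
        - (w n * ∏ j, sgn α (n + h j) + (1 - w n) * ∏ j, sgn β (n + h j))|
        ≤ 2 * ∑ j, |w (n + h j) - w n| := by
      intro n hn
      rw [Finset.mem_Ioc] at hn
      apply mix_prod h (glued τ δ) w (sgn α) (sgn β) n hw01 (sgn_abs α) (sgn_abs β)
      intro j
      apply hloc
      · have : (a0 : ℝ) ≤ (n + h j : ℕ) := by exact_mod_cast (by omega : a0 ≤ n + h j)
        linarith
      · have := hHj j; omega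
    refine (Finset.sum_le_sum h1).trans ?_
    rw [← Finset.mul_sum, Finset.sum_comm]
    apply mul_le_mul_of_nonneg_left _ (by norm_num)
    refine (Finset.sum_le_sum fun j _ => diff_shift w a0 N (h j) H (hHj j)).trans ?_
    rw [← Finset.sum_mul, hH]
    push_cast
    exact le_rfl
  -- step B
  have cα := hnr N hNa hNb α hs1 (by linarith) a0 ha0a ha0N
  have cβ := hnr N hNa hNb β (by linarith) hs4 a0 ha0a ha0N
  have eα := approx_sum a M (ha1 M) η0 ε1 hε1pos.le (hM0 M hM) α a0 N H cα ha0N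
  have eβ := approx_sum a M (ha1 M) η0 ε1 hε1pos.le (hM0 M hM) β a0 N H cβ ha0N
  have pα := prod_approx h a M (ha1 M) α a0 N H hHj _ eα w hwb
  have pβ := prod_approx h a M (ha1 M) β a0 N H hHj _ eβ w' hwb'
  -- step C
  have qα := hp N hNa hNb α hs1 (by linarith) a0 ha0a ha0N w hwb hVsmall
  have qβ := hp N hNa hNb β (by linarith) hs4 a0 ha0a ha0N w' hwb' hVsmall'
  -- collecting
  set S0 : ℝ := ∑ n ∈ Ioc 0 a0, ∏ j, glued τ δ (n + h j) with hS0
  have hS0le : |S0| ≤ a0 := by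
    rw [hS0]
    refine (Finset.abs_sum_le_sum_abs _ _).trans ?_
    refine (Finset.sum_le_sum fun n _ => prod_abs (glued τ δ) (glued_pm τ δ) h n).trans ?_
    rw [Finset.sum_const, Nat.card_Ioc, nsmul_eq_mul, mul_one, Nat.sub_zero]
  have hsplit : ∑ n ∈ Ioc 0 N, ∏ j, glued τ δ (n + h j)
      = S0 + ∑ n ∈ Ioc a0 N, ∏ j, glued τ δ (n + h j) :=
    (Finset.sum_Ioc_consecutive _ (Nat.zero_le a0) ha0N).symm
  set Aα : ℝ := ∑ n ∈ Ioc a0 N, w n * ∏ j, sgn α (n + h j) with hAα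
  set Aβ : ℝ := ∑ n ∈ Ioc a0 N, w' n * ∏ j, sgn β (n + h j) with hAβ
  set Rα : ℝ := ∑ n ∈ Ioc a0 N, w n * ∏ j, ap a M (α * Real.log ((n + h j : ℕ) : ℝ)) with hRα
  set Rβ : ℝ := ∑ n ∈ Ioc a0 N, w' n * ∏ j, ap a M (β * Real.log ((n + h j : ℕ) : ℝ)) with hRβ
  have hSAeq : SA = Aα + Aβ := by
    rw [hSA, hAα, hAβ, Finset.sum_add_distrib]
  have qα' : ‖((Rα : ℝ) : ℂ) - LM a M h d * ((∑ n ∈ Ioc a0 N, w n : ℝ) : ℂ)‖ ≤ ε / 48 * N := by
    rw [hRα]; push_cast; push_cast at qα; exact qα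
  have qβ' : ‖((Rβ : ℝ) : ℂ) - LM a M h d * ((∑ n ∈ Ioc a0 N, w' n : ℝ) : ℂ)‖ ≤ ε / 48 * N := by
    rw [hRβ]; push_cast; push_cast at qβ; exact qβ
  have hww : (∑ n ∈ Ioc a0 N, w n) + (∑ n ∈ Ioc a0 N, w' n) = N - a0 := by
    rw [← Finset.sum_add_distrib]
    have : ∀ n ∈ Ioc a0 N, w n + w' n = 1 := fun n _ => by simp only [hw']; ring
    rw [Finset.sum_congr rfl this, Finset.sum_const, Nat.card_Ioc, nsmul_eq_mul, mul_one,
      Nat.cast_sub ha0N]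
  set S : ℝ := ∑ n ∈ Ioc 0 N, ∏ j, glued τ δ (n + h j) with hS
  have hreal : |S - (Rα + Rβ)| ≤ a0 + 2 * (H * V) + 2 * (k * (3 * ε1 * N + 2 * H)) := by
    have e : S - (Rα + Rβ) = S0 + (∑ n ∈ Ioc a0 N, ∏ j, glued τ δ (n + h j) - SA)
        + ((Aα - Rα) + (Aβ - Rβ)) := by
      rw [hsplit, hSAeq]; ring
    rw [e]
    have t1 := abs_add_le (S0 + (∑ n ∈ Ioc a0 N, ∏ j, glued τ δ (n + h j) - SA))
      ((Aα - Rα) + (Aβ - Rβ))
    have t2 := abs_add_le S0 (∑ n ∈ Ioc a0 N, ∏ j, glued τ δ (n + h j) - SA)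
    have t3 := abs_add_le (Aα - Rα) (Aβ - Rβ)
    linarith
  have hcomplex : ‖((S : ℝ) : ℂ) - LM a M h d * N‖
      ≤ (a0 + 2 * (H * V) + 2 * (k * (3 * ε1 * N + 2 * H))) + (ε / 48 * N + ε / 48 * N) + Λ * a0 := by
    have e : ((S : ℝ) : ℂ) - LM a M h d * N = (((S - (Rα + Rβ) : ℝ)) : ℂ)
        + ((((Rα : ℝ) : ℂ) - LM a M h d * ((∑ n ∈ Ioc a0 N, w n : ℝ) : ℂ))
          + (((Rβ : ℝ) : ℂ) - LM a M h d * ((∑ n ∈ Ioc a0 N, w' n : ℝ) : ℂ)))
        - LM a M h d * ((a0 : ℝ) : ℂ) := by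
      have h1 : ((N : ℕ) : ℂ) = ((∑ n ∈ Ioc a0 N, w n : ℝ) : ℂ) + ((∑ n ∈ Ioc a0 N, w' n : ℝ) : ℂ)
          + ((a0 : ℝ) : ℂ) := by
        rw [← Complex.ofReal_add, hww, ← Complex.ofReal_add]
        push_cast; ring
      rw [h1]
      push_cast
      ring
    rw [e]
    refine (norm_sub_le _ _).trans ?_
    have t1 : ‖LM a M h d * ((a0 : ℝ) : ℂ)‖ = Λ * a0 := by
      rw [norm_mul, Complex.norm_real, Real.norm_eq_abs, abs_of_nonneg (by positivity)]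
    rw [t1]
    have t2 := norm_add_le (((S - (Rα + Rβ) : ℝ)) : ℂ)
      ((((Rα : ℝ) : ℂ) - LM a M h d * ((∑ n ∈ Ioc a0 N, w n : ℝ) : ℂ))
          + (((Rβ : ℝ) : ℂ) - LM a M h d * ((∑ n ∈ Ioc a0 N, w' n : ℝ) : ℂ)))
    have t3 := norm_add_le (((Rα : ℝ) : ℂ) - LM a M h d * ((∑ n ∈ Ioc a0 N, w n : ℝ) : ℂ))
          (((Rβ : ℝ) : ℂ) - LM a M h d * ((∑ n ∈ Ioc a0 N, w' n : ℝ) : ℂ))
    have t4 : ‖(((S - (Rα + Rβ) : ℝ)) : ℂ)‖ ≤ a0 + 2 * (H * V) + 2 * (k * (3 * ε1 * N + 2 * H)) := by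
      rw [Complex.norm_real, Real.norm_eq_abs]; exact hreal
    linarith
  -- numerical conclusion
  have n1 : (1 + Λ) * a0 ≤ ε / 24 * N + (1 + Λ) := by
    have h1 : (1 + Λ) * a0 ≤ (1 + Λ) * (ε' * N + 1) :=
      mul_le_mul_of_nonneg_left ha0b.le (by positivity)
    have h2 : (1 + Λ) * ε' ≤ ε / 24 := by
      rw [le_div_iff₀ (by positivity)] at hε'b
      linarith
    have h3 := mul_le_mul_of_nonneg_right h2 hNpos.le
    linarith
  have n2 : 2 * (H * V) ≤ ε / 24 * N := by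
    have h1 : V ≤ C1 * (Real.log N + 1) := by
      refine hVle.trans ?_
      apply mul_le_mul_of_nonneg_left _ hC10
      have := i_le_log hNa
      linarith
    have h2 : 2 * (H * V) ≤ 2 * (H * (C1 * (Real.log N + 1))) := by
      apply mul_le_mul_of_nonneg_left _ (by norm_num)
      exact mul_le_mul_of_nonneg_left h1 hH0
    linarith
  have n3 : 2 * (k * (3 * ε1 * N + 2 * H)) ≤ ε / 4 * N + 4 * k * H := by
    have h1 : k * ε1 ≤ ε / 24 := by
      rw [hε1, ← mul_div_assoc, div_le_div_iff₀ (by positivity) (by norm_num)]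
      nlinarith
    have h2 := mul_le_mul_of_nonneg_right h1 hNpos.le
    linarith
  have hfin : ‖((S : ℝ) : ℂ) - LM a M h d * N‖ ≤ ε * N := by
    have h1 : (0 : ℝ) ≤ ε * N := by positivity
    linarith
  have havg : ((avg (glued τ δ) h N : ℝ) : ℂ) - LM a M h d
      = (((S : ℝ) : ℂ) - LM a M h d * N) / N := by
    unfold avg
    have hNc : ((N : ℕ) : ℂ) ≠ 0 := by exact_mod_cast (by omega : N ≠ 0)
    rw [← hS, sub_div, mul_div_assoc, div_self hNc, mul_one]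
    push_cast
    rfl
  rw [havg, norm_div, Complex.norm_natCast, div_le_iff₀ hNpos]
  exact hfin

end Pool.Agent.Helper8.Order
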